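import Mathlib

/-! Abstract interface between the topological and the combinatorial part. -/

namespace Pool.Agent.TL

/-- the consecutive pairs of a cyclic list -/
def arcs {V : Type} (X : List V) : List (V × V) := X.zip (X.rotate 1)

/-- mod 2 linking number of two cyclic lists computed from a function of pairs of arcs -/
def lk {V : Type} (w : V × V → V × V → ZMod 2) (X Y : List V) : ZMod 2 :=
  ((arcs X).map fun e => ((arcs Y).map fun f => w e f).sum).sum

/-- van Kampen parity between the classes 0 and 1 -/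
def HK {n : ℕ} (w : (Fin 3 × Fin n) × (Fin 3 × Fin n) → (Fin 3 × Fin n) × (Fin 3 × Fin n) → ZMod 2) :
    Prop :=
  ∀ a b : Fin 3 → Fin n, Function.Injective a → Function.Injective b →
    (∑ i, ∑ j, ∑ i', ∑ j', if i ≠ i' ∧ j ≠ j' then
      w ((0, a i), (1, b j)) ((0, a i'), (1, b j')) else 0) = 1

/-- the combinatorial core -/
def CombS : Prop :=
  ∃ C : ℝ, 0 ≤ C ∧ ∀ (n m : ℕ)
    (w : (Fin 3 × Fin n) × (Fin 3 × Fin n) → (Fin 3 × Fin n) × (Fin 3 × Fin n) → ZMod 2),
    HK w → (m : ℝ) + C * Real.log n + C ≤ n →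
    ∃ L : Fin m → List (Fin 3 × Fin n),
      (∀ i, (L i).Nodup ∧ L i ≠ [] ∧ ∀ e ∈ arcs (L i), e.2.1 = e.1.1 + 1) ∧
      (∀ i j, i ≠ j → (L i).Disjoint (L j)) ∧
      ∀ i : Fin m, 0 < i.1 → ∃ j, j < i ∧ (lk w (L j) (L i) = 1 ∨ lk w (L i) (L j) = 1)

end Pool.Agent.TL
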