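import Pool.Agent.Lib.MP_4fe900_gt.St
import Pool.Agent.Lib.MP_4fe900_gt.TL.St

/-! Combinatorial part: key rings in the blow-up of the directed triangle and their merging. -/

namespace Pool.Agent.TL.Comb

open Finset

section lists
variable {α M : Type*} [AddCommMonoid M]

/-- the arcs of a closed walk given as a list -/
def arcs (X : List α) : List (α × α) := X.zip (X.rotate 1)

/-- sum of a function over the arcs -/
def val (f : α × α → M) (X : List α) : M := ((arcs X).map f).sum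

/-- the pairing of two closed walks -/
def lk (w : α × α → α × α → M) (X Y : List α) : M := val (fun e => val (fun f => w f e) X) Y

theorem lk_eq (w : α × α → α × α → M) (X Y : List α) :
    lk w X Y = ((arcs X).map fun f => ((arcs Y).map fun e => w f e).sum).sum := by
  unfold lk val
  generalize arcs X = A
  generalize arcs Y = B
  induction A with
  | nil => simp
  | cons a A ih => simp [List.sum_map_add, ih]

/-- sum over the arcs of an open walk -/
def pv (f : α × α → M) : List α → M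
  | x :: y :: l => f (x, y) + pv f (y :: l)
  | _ => 0

theorem zip_pv (f : α × α → M) (l : List α) (x y : α) :
    (((x :: l).zip (l ++ [y])).map f).sum = pv f (x :: (l ++ [y])) := by
  induction l generalizing x with
  | nil => simp [pv]
  | cons z l ih =>
    have := ih z
    simp only [List.cons_append, List.zip_cons_cons, List.map_cons, List.sum_cons, pv] at this ⊢
    rw [this]

theorem val_cons (f : α × α → M) (x : α) (l : List α) :
    val f (x :: l) = pv f (x :: (l ++ [x])) := by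
  unfold val arcs
  rw [List.rotate_cons_succ, List.rotate_zero, zip_pv]

theorem pv_split (f : α × α → M) (l m : List α) (x y : α) :
    pv f (x :: (l ++ y :: m)) = pv f (x :: (l ++ [y])) + pv f (y :: m) := by
  induction l generalizing x with
  | nil => simp [pv]
  | cons z l ih =>
    have := ih z
    simp only [List.cons_append, pv] at this ⊢
    rw [this, add_assoc]

theorem val_join (f : α × α → M) (u v u' v' : α) (l l' : List α) :
    val f ((u :: (l ++ [v])) ++ (u' :: (l' ++ [v']))) =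
      pv f (u :: (l ++ [v])) + f (v, u') + pv f (u' :: (l' ++ [v'])) + f (v', u) := by
  have e : ((l ++ [v]) ++ (u' :: (l' ++ [v']))) ++ [u] = l ++ v :: (u' :: (l' ++ v' :: [u])) := by
    simp
  rw [List.cons_append, val_cons, e, pv_split]
  simp only [pv]
  rw [pv_split f l' [u] u' v']
  simp only [pv, add_zero, add_assoc]

theorem val_prod {N : Type*} [AddCommMonoid N] (f : α × α → M) (g : α × α → N) (X : List α) :
    val (fun e => (f e, g e)) X = (val f X, val g X) := by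
  unfold val
  generalize arcs X = A
  induction A with
  | nil => rfl
  | cons a A ih => simp [ih]

end lists

variable {β : Type*}

/-- indicator of a wrongly directed arc -/
def bad (e : (Fin 3 × β) × (Fin 3 × β)) : ℕ := if e.2.1 = e.1.1 + 1 then 0 else 1

/-- directed cycle of the blow-up -/
def Cyc (X : List (Fin 3 × β)) : Prop :=
  X ≠ [] ∧ X.Nodup ∧ ∀ e ∈ arcs X, e.2.1 = e.1.1 + 1

theorem good_of_val {X : List (Fin 3 × β)} (h : val bad X = 0) :
    ∀ e ∈ arcs X, e.2.1 = e.1.1 + 1 := by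
  intro e he
  have h2 : bad e = 0 := by
    unfold val at h
    exact (List.sum_eq_zero_iff.1 h) _ (List.mem_map_of_mem he)
  unfold bad at h2
  by_contra hc
  simp [hc] at h2

/-- transversal triangle -/
def tri (t : Fin 3 → β) : List (Fin 3 × β) := [(0, t 0), (1, t 1), (2, t 2)]

theorem mem_tri {t : Fin 3 → β} {v : Fin 3 × β} : v ∈ tri t ↔ v.2 = t v.1 := by
  obtain ⟨i, x⟩ := v
  fin_cases i <;> simp [tri]

theorem cyc_tri (t : Fin 3 → β) : Cyc (tri t) := by
  refine ⟨by simp [tri], by simp [tri], ?_⟩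
  simp [tri, arcs]

theorem val_tri {M : Type*} [AddCommMonoid M] (f : (Fin 3 × β) × (Fin 3 × β) → M)
    (t : Fin 3 → β) : val f (tri t) =
      f ((0, t 0), (1, t 1)) + (f ((1, t 1), (2, t 2)) + f ((2, t 2), (0, t 0))) := by
  simp [val, tri, arcs]

/-- directed path inside a set -/
def Pth (S : Fin 3 × β → Prop) (u : Fin 3 × β) (l : List (Fin 3 × β)) (v : Fin 3 × β) : Prop :=
  (u :: (l ++ [v])).Nodup ∧ (∀ x ∈ u :: (l ++ [v]), S x) ∧ pv bad (u :: (l ++ [v])) = 0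

abbrev V2 := ZMod 2 × ZMod 2

/-- two parallel paths whose values differ by `d` -/
def Slot (S : Fin 3 × β → Prop) (f : (Fin 3 × β) × (Fin 3 × β) → V2) (d : V2) : Prop :=
  ∃ u v l m, u.1 = 2 ∧ v.1 = 1 ∧ Pth S u l v ∧ Pth S u m v ∧
    pv f (u :: (m ++ [v])) = pv f (u :: (l ++ [v])) + d

theorem join {S S' : Fin 3 × β → Prop} (hd : ∀ x, S x → S' x → False) {u v u' v' : Fin 3 × β}
    {l l' : List (Fin 3 × β)} (hu : u.1 = 2) (hv : v.1 = 1) (hu' : u'.1 = 2) (hv' : v'.1 = 1)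
    (h : Pth S u l v) (h' : Pth S' u' l' v') :
    Cyc ((u :: (l ++ [v])) ++ (u' :: (l' ++ [v']))) ∧
      ∀ x ∈ (u :: (l ++ [v])) ++ (u' :: (l' ++ [v'])), S x ∨ S' x := by
  refine ⟨⟨by simp, ?_, good_of_val ?_⟩, ?_⟩
  · exact List.Nodup.append h.1 h'.1 fun x hx hx' => hd x (h.2.1 x hx) (h'.2.1 x hx')
  · rw [val_join, h.2.2, h'.2.2]
    simp [bad, hu, hv, hu', hv']
  · intro x hx
    rcases List.mem_append.1 hx with hx | hx
    · exact Or.inl (h.2.1 x hx)
    · exact Or.inr (h'.2.1 x hx)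

theorem v2_add (a b : V2) : b = a + (a + b) := by revert a b; decide

theorem slots (f : (Fin 3 × β) × (Fin 3 × β) → V2) {t s : Fin 3 → β} (h : ∀ i, t i ≠ s i) :
    ∃ d : Fin 3 → V2, d 0 + d 1 + d 2 = val f (tri t) ∧
      ∀ i, Slot (fun x => x.2 = t x.1 ∨ x.2 = s x.1) f (d i) := by
  have h0 := h 0
  have h1 := h 1
  have h2 := h 2
  have p1 : Pth (fun x => x.2 = t x.1 ∨ x.2 = s x.1) (2, s 2) [(0, s 0)] (1, s 1) := by
    refine ⟨by simp, by simp, by simp [pv, bad]⟩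
  have p2 : Pth (fun x => x.2 = t x.1 ∨ x.2 = s x.1) (2, s 2)
      [(0, t 0), (1, t 1), (2, t 2), (0, s 0)] (1, s 1) := by
    refine ⟨by simp [h0, h1, h2.symm], by simp, by simp [pv, bad]⟩
  have p3 : Pth (fun x => x.2 = t x.1 ∨ x.2 = s x.1) (2, t 2) [(0, s 0)] (1, s 1) := by
    refine ⟨by simp, by simp, by simp [pv, bad]⟩
  have p4 : Pth (fun x => x.2 = t x.1 ∨ x.2 = s x.1) (2, t 2) [(0, t 0)] (1, s 1) := by
    refine ⟨by simp, by simp, by simp [pv, bad]⟩
  have p5 : Pth (fun x => x.2 = t x.1 ∨ x.2 = s x.1) (2, s 2) [(0, t 0)] (1, s 1) := by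
    refine ⟨by simp, by simp, by simp [pv, bad]⟩
  refine ⟨![pv f ((2, s 2) :: ([(0, s 0)] ++ [(1, s 1)])) +
      pv f ((2, s 2) :: ([(0, t 0), (1, t 1), (2, t 2), (0, s 0)] ++ [(1, s 1)])),
    pv f ((2, t 2) :: ([(0, s 0)] ++ [(1, s 1)])) + pv f ((2, t 2) :: ([(0, t 0)] ++ [(1, s 1)])),
    pv f ((2, s 2) :: ([(0, s 0)] ++ [(1, s 1)])) + pv f ((2, s 2) :: ([(0, t 0)] ++ [(1, s 1)]))],
    ?_, ?_⟩
  · rw [val_tri]
    simp only [Matrix.cons_val_zero, Matrix.cons_val_one, Matrix.cons_val, List.cons_append,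
      List.nil_append, pv, add_zero]
    generalize f ((2, s 2), (0, s 0)) = a1
    generalize f ((0, s 0), (1, s 1)) = a2
    generalize f ((2, s 2), (0, t 0)) = a3
    generalize f ((0, t 0), (1, t 1)) = a4
    generalize f ((1, t 1), (2, t 2)) = a5
    generalize f ((2, t 2), (0, s 0)) = a6
    generalize f ((2, t 2), (0, t 0)) = a7
    generalize f ((0, t 0), (1, s 1)) = a8
    have e : ∀ a : V2, a + a = 0 := by decide
    linear_combination e a1 + e a2 + e a2 + e a3 + e a6 + e a8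
  · intro i
    fin_cases i
    · exact ⟨_, _, _, _, rfl, rfl, p1, p2, v2_add _ _⟩
    · exact ⟨_, _, _, _, rfl, rfl, p3, p4, v2_add _ _⟩
    · exact ⟨_, _, _, _, rfl, rfl, p1, p5, v2_add _ _⟩

theorem pick (d e : Fin 3 → V2) (hd : d 0 + d 1 + d 2 = (1, 0)) (he : e 0 + e 1 + e 2 = (0, 1)) :
    ∃ i j, ∀ z : V2, z = (1, 1) ∨ z + d i = (1, 1) ∨ z + e j = (1, 1) ∨ z + d i + e j = (1, 1) := by
  have h1 : ∃ i, (d i).1 = 1 := by
    by_contra hc
    push Not at hc
    have z : ∀ a : ZMod 2, a ≠ 1 → a = 0 := by decide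
    have := congrArg Prod.fst hd
    simp [z _ (hc 0), z _ (hc 1), z _ (hc 2)] at this
  obtain ⟨i, hi⟩ := h1
  have h2 : ∀ x a b c : V2, x.1 = 1 → a + b + c = (0, 1) →
      (a ≠ 0 ∧ a ≠ x) ∨ (b ≠ 0 ∧ b ≠ x) ∨ (c ≠ 0 ∧ c ≠ x) := by decide
  have h3 : ∀ x a : V2, x.1 = 1 → a ≠ 0 ∧ a ≠ x → ∀ z : V2,
      z = (1, 1) ∨ z + x = (1, 1) ∨ z + a = (1, 1) ∨ z + x + a = (1, 1) := by decide
  rcases h2 _ _ _ _ hi he with h | h | h
  · exact ⟨i, 0, h3 _ _ hi h⟩
  · exact ⟨i, 1, h3 _ _ hi h⟩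
  · exact ⟨i, 2, h3 _ _ hi h⟩

theorem bridge0 (f : (Fin 3 × β) × (Fin 3 × β) → V2) {t s t' s' : Fin 3 → β}
    (h : ∀ i, t i ≠ s i) (h' : ∀ i, t' i ≠ s' i)
    (hd : ∀ i, t i ≠ t' i ∧ t i ≠ s' i ∧ s i ≠ t' i ∧ s i ≠ s' i)
    (h1 : (val f (tri t)).1 = 1) (h2 : (val f (tri t')).2 = 1) :
    ∃ Z, Cyc Z ∧ (∀ x ∈ Z, (x.2 = t x.1 ∨ x.2 = s x.1) ∨ (x.2 = t' x.1 ∨ x.2 = s' x.1)) ∧
      val f Z = (1, 1) := by
  have c1 : ∀ a : V2, a.1 = 1 → a = (1, 1) ∨ a = (1, 0) := by decide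
  have c2 : ∀ a : V2, a.2 = 1 → a = (1, 1) ∨ a = (0, 1) := by decide
  rcases c1 _ h1 with h1 | h1
  · exact ⟨tri t, cyc_tri t, fun x hx => Or.inl (Or.inl (mem_tri.1 hx)), h1⟩
  rcases c2 _ h2 with h2 | h2
  · exact ⟨tri t', cyc_tri t', fun x hx => Or.inr (Or.inl (mem_tri.1 hx)), h2⟩
  obtain ⟨d, hd1, hd2⟩ := slots f h
  obtain ⟨e, he1, he2⟩ := slots f h'
  obtain ⟨i, j, hz⟩ := pick d e (hd1.trans h1) (he1.trans h2)
  obtain ⟨u, v, l, m, hu, hv, pl, pm, q⟩ := hd2 i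
  obtain ⟨u', v', l', m', hu', hv', pl', pm', q'⟩ := he2 j
  have dj : ∀ x : Fin 3 × β, (x.2 = t x.1 ∨ x.2 = s x.1) → (x.2 = t' x.1 ∨ x.2 = s' x.1) →
      False := by
    intro x a b
    obtain ⟨k1, k2, k3, k4⟩ := hd x.1
    rcases a with a | a <;> rcases b with b | b
    · exact k1 (a.symm.trans b)
    · exact k2 (a.symm.trans b)
    · exact k3 (a.symm.trans b)
    · exact k4 (a.symm.trans b)
  rcases hz (val f ((u :: (l ++ [v])) ++ (u' :: (l' ++ [v'])))) with k | k | k | k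
  · exact ⟨_, (join dj hu hv hu' hv' pl pl').1, (join dj hu hv hu' hv' pl pl').2, k⟩
  · refine ⟨_, (join dj hu hv hu' hv' pm pl').1, (join dj hu hv hu' hv' pm pl').2, ?_⟩
    rw [← k, val_join, val_join, q]; abel
  · refine ⟨_, (join dj hu hv hu' hv' pl pm').1, (join dj hu hv hu' hv' pl pm').2, ?_⟩
    rw [← k, val_join, val_join, q']; abel
  · refine ⟨_, (join dj hu hv hu' hv' pm pm').1, (join dj hu hv hu' hv' pm pm').2, ?_⟩
    rw [← k, val_join, val_join, q, q']; abel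

variable (w : (Fin 3 × β) × (Fin 3 × β) → (Fin 3 × β) × (Fin 3 × β) → ZMod 2)

theorem bridge (R R' : List (Fin 3 × β)) {t s t' s' : Fin 3 → β}
    (h : ∀ i, t i ≠ s i) (h' : ∀ i, t' i ≠ s' i)
    (hd : ∀ i, t i ≠ t' i ∧ t i ≠ s' i ∧ s i ≠ t' i ∧ s i ≠ s' i)
    (h1 : lk w R (tri t) = 1) (h2 : lk w R' (tri t') = 1) :
    ∃ Z, Cyc Z ∧ (∀ x ∈ Z, (x.2 = t x.1 ∨ x.2 = s x.1) ∨ (x.2 = t' x.1 ∨ x.2 = s' x.1)) ∧
      lk w R Z = 1 ∧ lk w R' Z = 1 := by
  obtain ⟨Z, a, b, c⟩ := bridge0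
    (fun e => (val (fun f => w f e) R, val (fun f => w f e) R')) h h' hd
    (by rw [val_prod]; exact h1) (by rw [val_prod]; exact h2)
  rw [val_prod] at c
  exact ⟨Z, a, b, congrArg Prod.fst c, congrArg Prod.snd c⟩

/-- van Kampen parity of every `K_{3,3}` between the first two classes -/
def VK : Prop := ∀ a b : Fin 3 → β, Function.Injective a → Function.Injective b →
  (∑ i, ∑ j, ∑ i', ∑ j', if i ≠ i' ∧ j ≠ j' then
    w ((0, a i), (1, b j)) ((0, a i'), (1, b j')) else 0) = 1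

theorem base (hK : VK w) (a b : Fin 3 → β) (ha : Function.Injective a)
    (hb : Function.Injective b) (c c' : β) :
    ∃ i j i' j', i ≠ i' ∧ j ≠ j' ∧ lk w (tri ![a i, b j, c]) (tri ![a i', b j', c']) = 1 := by
  by_contra hc
  push Not at hc
  have z : ∀ a : ZMod 2, a ≠ 1 → a = 0 := by decide
  have h0 : (∑ i, ∑ j, ∑ i', ∑ j', if i ≠ i' ∧ j ≠ j' then
      lk w (tri ![a i, b j, c]) (tri ![a i', b j', c']) else 0) = 0 := by
    refine sum_eq_zero fun i _ => sum_eq_zero fun j _ => sum_eq_zero fun i' _ =>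
      sum_eq_zero fun j' _ => ?_
    split_ifs with h
    · exact z _ (hc i j i' j' h.1 h.2)
    · rfl
  have h1 := hK a b ha hb
  simp only [Fin.sum_univ_three] at h0 h1
  simp only [ne_eq, Fin.reduceEq, not_true_eq_false, not_false_eq_true, and_true, and_false,
    if_true, if_false, and_self, lk, val_tri, Matrix.cons_val_zero, Matrix.cons_val_one,
    Matrix.cons_val] at h0 h1
  have : (1 : ZMod 2) = 0 := by
    linear_combination (norm := (ring_nf; reduce_mod_char; try ring_nf)) h0 - h1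
  exact absurd this (by decide)

/-- density step over a finite additive group -/
theorem dens {G : Type} [AddCommGroup G] [Fintype G] [DecidableEq G]
    (R : (Fin 3 → G) → (Fin 3 → G) → Prop)
    (hR : ∀ a b : Fin 3 → G, Function.Injective a → Function.Injective b → ∀ c c' : G,
      ∃ i j i' j', i ≠ i' ∧ j ≠ j' ∧ R ![a i, b j, c] ![a i', b j', c'])
    {m : ℕ} (hN : 40 ≤ Fintype.card G) (hm : 128 * m ≤ Fintype.card G) :
    ∃ (r : Fin 3 → G) (k : Fin m → Fin 3 → G), (∀ i, Function.Injective fun j => k j i) ∧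
      (∀ j i, k j i ≠ r i) ∧ ∀ j, R r (k j) := by
  classical
  set N := Fintype.card G with hNd
  choose I J I' J' hI hJ hRR using
    fun o : (Fin 3 ↪ G) × (Fin 3 ↪ G) × (Fin 2 ↪ G) =>
      hR o.1 o.2.1 o.1.injective o.2.1.injective (o.2.2 0) (o.2.2 1)
  let F : (Fin 3 ↪ G) × (Fin 3 ↪ G) × (Fin 2 ↪ G) →
      (Fin 3 × Fin 3 × Fin 3 × Fin 3) × (G × G × G) × (G × G) × (G × G) := fun o =>
    ((I o, J o, I' o, J' o), (o.1 (I o), o.2.1 (J o), o.2.2 0),
      (o.2.1 (J' o) - o.1 (I' o), o.2.2 1 - o.1 (I' o)),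
      (o.1 (-(I o + I' o)), o.2.1 (-(J o + J' o))))
  have hc : Fintype.card ((Fin 3 × Fin 3 × Fin 3 × Fin 3) × (G × G × G) × (G × G) × (G × G)) * m ≤
      Fintype.card ((Fin 3 ↪ G) × (Fin 3 ↪ G) × (Fin 2 ↪ G)) := by
    simp only [Fintype.card_prod, Fintype.card_fin, Fintype.card_embedding_eq, ← hNd]
    obtain ⟨M, hM⟩ : ∃ M, N = M + 2 := ⟨N - 2, by omega⟩
    have e3 : N.descFactorial 3 = M * ((M + 1) * (M + 2)) := by
      rw [hM]; simp [Nat.descFactorial_succ]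
    have e2 : N.descFactorial 2 = (M + 1) * (M + 2) := by
      rw [hM]; simp [Nat.descFactorial_succ]
    rw [e3, e2]
    have h1 : M ^ 8 ≤ M * ((M + 1) * (M + 2)) * (M * ((M + 1) * (M + 2)) * ((M + 1) * (M + 2))) := by
      calc M ^ 8 = M * (M * M) * (M * (M * M) * (M * M)) := by ring
        _ ≤ _ := by gcongr <;> omega
    refine le_trans ?_ h1
    have h2 : (19 * N) ^ 8 ≤ (20 * M) ^ 8 := Nat.pow_le_pow_left (by omega) 8
    have h3 : N ^ 7 * (128 * m) ≤ N ^ 7 * N := Nat.mul_le_mul_left _ hm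
    have e4 : 3 * (3 * (3 * 3)) * (N * (N * N) * (N * N * (N * N))) * m = 81 * (N ^ 7 * m) := by ring
    have e5 : N ^ 7 * (128 * m) = 128 * (N ^ 7 * m) := by ring
    have e6 : N ^ 7 * N = N ^ 8 := by ring
    rw [e4]
    rw [e5, e6] at h3
    rw [mul_pow, mul_pow] at h2
    generalize N ^ 7 * m = X at h3 ⊢
    generalize N ^ 8 = Y at h2 h3
    generalize M ^ 8 = Z at h2 ⊢
    omega
  obtain ⟨y, hy⟩ := Fintype.exists_le_card_fiber_of_mul_le_card F hc
  obtain ⟨E, hE, hF⟩ : ∃ E : Fin m → (Fin 3 ↪ G) × (Fin 3 ↪ G) × (Fin 2 ↪ G),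
      Function.Injective E ∧ ∀ j, F (E j) = y := by
    obtain ⟨e⟩ : Nonempty (Fin m ↪ {o // o ∈ univ.filter fun o => F o = y}) :=
      Function.Embedding.nonempty_of_card_le (by rw [Fintype.card_fin, Fintype.card_coe]; exact hy)
    exact ⟨fun j => (e j).1, fun j j' h => e.injective (Subtype.ext h),
      fun j => (mem_filter.1 (e j).2).2⟩
  clear hy
  obtain ⟨⟨i0, j0, i1, j1⟩, ⟨a0, b0, c0⟩, ⟨s, t⟩, ⟨p, q⟩⟩ := y
  have th : ∀ i i' : Fin 3, i ≠ i' → ∀ k, k = i ∨ k = i' ∨ k = -(i + i') := by decide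
  have key : ∀ j, I (E j) = i0 ∧ J (E j) = j0 ∧ I' (E j) = i1 ∧ J' (E j) = j1 ∧
      (E j).1 i0 = a0 ∧ (E j).2.1 j0 = b0 ∧ (E j).2.2 0 = c0 ∧
      (E j).2.1 j1 = (E j).1 i1 + s ∧ (E j).2.2 1 = (E j).1 i1 + t ∧
      (E j).1 (-(i0 + i1)) = p ∧ (E j).2.1 (-(j0 + j1)) = q := by
    intro j
    have := hF j
    simp only [F, Prod.mk.injEq] at this
    obtain ⟨⟨h1, h2, h3, h4⟩, ⟨h5, h6, h7⟩, ⟨h8, h9⟩, h10, h11⟩ := this
    rw [h1] at h5 h10
    rw [h2] at h6 h11
    rw [h3] at h8 h9 h10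
    rw [h4] at h8 h11
    refine ⟨h1, h2, h3, h4, h5, h6, h7, ?_, ?_, h10, h11⟩
    · rw [← h8]; abel
    · rw [← h9]; abel
  have inj : Function.Injective fun j => (E j).1 i1 := by
    intro j j' h
    have h : (E j).1 i1 = (E j').1 i1 := h
    obtain ⟨k1, k2, k3, k4, k5, k6, k7, k8, k9, k10, k11⟩ := key j
    obtain ⟨-, -, -, -, l5, l6, l7, l8, l9, l10, l11⟩ := key j'
    have hi : i0 ≠ i1 := k1 ▸ k3 ▸ hI _
    have hj : j0 ≠ j1 := k2 ▸ k4 ▸ hJ _
    apply hE
    refine Prod.ext ?_ (Prod.ext ?_ ?_)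
    · ext k
      rcases th _ _ hi k with rfl | rfl | rfl
      · rw [k5, l5]
      · exact h
      · rw [k10, l10]
    · ext k
      rcases th _ _ hj k with rfl | rfl | rfl
      · rw [k6, l6]
      · rw [k8, l8, h]
      · rw [k11, l11]
    · ext k
      fin_cases k
      · exact k7.trans l7.symm
      · exact k9.trans ((congrArg (· + t) h).trans l9.symm)
  refine ⟨![a0, b0, c0], fun j => ![(E j).1 i1, (E j).1 i1 + s, (E j).1 i1 + t], ?_, ?_, ?_⟩
  · intro i j j' h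
    apply inj
    fin_cases i
    · simpa using h
    · simpa using h
    · simpa using h
  · intro j i
    obtain ⟨k1, k2, k3, k4, k5, k6, k7, k8, k9, -, -⟩ := key j
    have hi : i0 ≠ i1 := k1 ▸ k3 ▸ hI _
    have hj : j0 ≠ j1 := k2 ▸ k4 ▸ hJ _
    fin_cases i
    · change (E j).1 i1 ≠ a0
      exact fun h => hi ((E j).1.injective (h.trans k5.symm)).symm
    · change (E j).1 i1 + s ≠ b0
      exact fun h => hj ((E j).2.1.injective (k8.trans (h.trans k6.symm))).symm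
    · change (E j).1 i1 + t ≠ c0
      exact fun h => absurd ((E j).2.2.injective (k9.trans (h.trans k7.symm))) (by decide)
  · intro j
    obtain ⟨k1, k2, k3, k4, k5, k6, k7, k8, k9, -, -⟩ := key j
    have := hRR (E j)
    rw [k1, k2, k3, k4, k5, k6, k7, k8, k9] at this
    exact this

/-- a key ring: `K m` is linked with the disjoint triangles `K j`, `j < m` -/
theorem star (hK : VK w) (S : Fin 3 → Finset β) {N m : ℕ} (hS : ∀ i, (S i).card = N)
    (hN : 40 ≤ N) (hm : 128 * m ≤ N) :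
    ∃ K : ℕ → Fin 3 → β, (∀ j ≤ m, ∀ i, K j i ∈ S i) ∧
      (∀ j ≤ m, ∀ j' ≤ m, ∀ i, K j i = K j' i → j = j') ∧
      ∀ j < m, lk w (tri (K m)) (tri (K j)) = 1 := by
  have : NeZero N := ⟨by omega⟩
  have E : ∀ i, ZMod N ≃ S i := fun i =>
    Fintype.equivOfCardEq (by rw [ZMod.card, Fintype.card_coe, hS])
  let g : Fin 3 → ZMod N → β := fun i x => (E i x).1
  have gi : ∀ i, Function.Injective (g i) := fun i x y h => (E i).injective (Subtype.ext h)
  obtain ⟨r, k, h1, h2, h3⟩ := dens (G := ZMod N)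
    (fun t t' => lk w (tri fun i => g i (t i)) (tri fun i => g i (t' i)) = 1) (m := m)
    (fun a b ha hb c c' => by
      obtain ⟨i, j, i', j', hi, hj, h⟩ := base w hK (fun i => g 0 (a i)) (fun i => g 1 (b i))
        ((gi 0).comp ha) ((gi 1).comp hb) (g 2 c) (g 2 c')
      exact ⟨i, j, i', j', hi, hj, h⟩)
    (by rw [ZMod.card]; exact hN) (by rw [ZMod.card]; exact hm)
  refine ⟨fun j i => if h : j < m then g i (k ⟨j, h⟩ i) else g i (r i), ?_, ?_, ?_⟩
  · intro j _ i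
    dsimp only
    split_ifs
    · exact (E i _).2
    · exact (E i _).2
  · intro j hj j' hj' i h
    dsimp only at h
    split_ifs at h with a b b
    · exact congrArg Fin.val (h1 i (gi i h))
    · exact absurd (gi i h) (h2 _ _)
    · exact absurd (gi i h).symm (h2 _ _)
    · omega
  · intro j hj
    simp only [lt_irrefl, dite_false, hj, dite_true]
    exact h3 ⟨j, hj⟩

/-- every member is linked with an earlier one -/
def Ch (L : List (List (Fin 3 × β))) : Prop :=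
  ∀ i (h : i < L.length), 0 < i → ∃ j, ∃ hj : j < i,
    lk w (L[j]'(hj.trans h)) L[i] = 1 ∨ lk w L[i] (L[j]'(hj.trans h)) = 1

theorem Ch.append {L K : List (List (Fin 3 × β))} (h : Ch w L)
    (hK : ∀ X ∈ K, ∃ Y ∈ L, lk w Y X = 1 ∨ lk w X Y = 1) : Ch w (L ++ K) := by
  intro i hi h0
  by_cases c : i < L.length
  · obtain ⟨j, hj, q⟩ := h i c h0
    refine ⟨j, hj, ?_⟩
    rw [List.getElem_append_left c, List.getElem_append_left (hj.trans c)]
    exact q
  · have c' : L.length ≤ i := not_lt.1 c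
    obtain ⟨Y, hY, q⟩ := hK ((L ++ K)[i]) (by
      rw [List.getElem_append_right c']; exact List.getElem_mem _)
    obtain ⟨j, hj, rfl⟩ := List.getElem_of_mem hY
    refine ⟨j, lt_of_lt_of_le hj c', ?_⟩
    rw [List.getElem_append_left (as := L) hj]
    exact q

theorem ch_one (X : List (Fin 3 × β)) : Ch w [X] := by
  intro i hi h0
  simp at hi
  omega

theorem disj_tri {t s : Fin 3 → β} (h : ∀ i, t i ≠ s i) : (tri t).Disjoint (tri s) :=
  fun x a b => h x.1 ((mem_tri.1 a).symm.trans (mem_tri.1 b))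

theorem main (hK : VK w) (N : ℕ) : ∀ S : Fin 3 → Finset β, (∀ i, (S i).card = N) → 512 ≤ N →
    ∃ (L : List (List (Fin 3 × β))) (R : List (Fin 3 × β)) (t s : Fin 3 → β), R ∈ L ∧
      (∀ X ∈ L, Cyc X ∧ ∀ v ∈ X, v.2 ∈ S v.1 ∧ v.2 ≠ t v.1 ∧ v.2 ≠ s v.1) ∧
      L.Pairwise List.Disjoint ∧ Ch w L ∧ (∀ i, t i ∈ S i ∧ s i ∈ S i ∧ t i ≠ s i) ∧
      lk w R (tri t) = 1 ∧ (N : ℝ) ≤ L.length + 384 * Real.log N + 520 := by
  classical
  induction N using Nat.strong_induction_on with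
  | _ N ih =>
  intro S hS hN
  obtain ⟨m, hm1, hm2⟩ : ∃ m, 128 * m ≤ N ∧ N < 128 * (m + 1) := ⟨N / 128, by omega, by omega⟩
  have hm4 : 4 ≤ m := by omega
  obtain ⟨K, k1, k2, k3⟩ := star w hK S hS (by omega) hm1
  have kn : ∀ j ≤ m, ∀ j' ≤ m, j ≠ j' → ∀ i, K j i ≠ K j' i :=
    fun j hj j' hj' h i e => h (k2 j hj j' hj' i e)
  let Q : List (List (Fin 3 × β)) := (List.range' 4 (m - 4)).map fun j => tri (K j)
  have hQ : ∀ X ∈ Q, ∃ j, 4 ≤ j ∧ j < m ∧ X = tri (K j) := by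
    intro X hX
    obtain ⟨j, hj, rfl⟩ := List.mem_map.1 hX
    rw [List.mem_range'_1] at hj
    exact ⟨j, hj.1, by omega, rfl⟩
  have hQ' : ∀ X ∈ tri (K m) :: Q, ∃ j, 4 ≤ j ∧ j ≤ m ∧ X = tri (K j) := by
    intro X hX
    rcases List.mem_cons.1 hX with rfl | hX
    · exact ⟨m, hm4, le_rfl, rfl⟩
    · obtain ⟨j, a, b, c⟩ := hQ X hX
      exact ⟨j, a, b.le, c⟩
  have pQ : (tri (K m) :: Q).Pairwise List.Disjoint := by
    refine List.Pairwise.cons ?_ ?_
    · intro X hX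
      obtain ⟨j, a, b, rfl⟩ := hQ X hX
      exact disj_tri (kn m le_rfl j b.le b.ne')
    · rw [List.pairwise_map]
      refine (List.nodup_range' (s := 4) (n := m - 4)).imp_of_mem ?_
      intro j j' hj hj' h
      rw [List.mem_range'_1] at hj hj'
      exact disj_tri (kn j (by omega) j' (by omega) h)
  have gQ : ∀ X ∈ tri (K m) :: Q, Cyc X ∧ ∀ v ∈ X, v.2 ∈ S v.1 ∧ v.2 ≠ K 2 v.1 ∧ v.2 ≠ K 3 v.1 := by
    intro X hX
    obtain ⟨j, a, b, rfl⟩ := hQ' X hX
    refine ⟨cyc_tri _, fun v hv => ?_⟩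
    rw [mem_tri.1 hv]
    exact ⟨k1 j b _, kn j b 2 (by omega) (by omega) _, kn j b 3 (by omega) (by omega) _⟩
  have sp : ∀ i, K 2 i ∈ S i ∧ K 3 i ∈ S i ∧ K 2 i ≠ K 3 i := fun i =>
    ⟨k1 2 (by omega) i, k1 3 (by omega) i, kn 2 (by omega) 3 (by omega) (by omega) i⟩
  have lQ : Q.length = m - 4 := by simp [Q]
  have cQ : ∀ L : List (List (Fin 3 × β)), tri (K m) ∈ L →
      ∀ X ∈ Q, ∃ Y ∈ L, lk w Y X = 1 ∨ lk w X Y = 1 := by
    intro L hL X hX
    obtain ⟨j, a, b, rfl⟩ := hQ X hX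
    exact ⟨_, hL, Or.inl (k3 j b)⟩
  have lg : 0 ≤ Real.log N := Real.log_natCast_nonneg N
  by_cases hb : N - (m + 1) < 512
  · refine ⟨tri (K m) :: Q, tri (K m), K 2, K 3, List.mem_cons_self, gQ, pQ, ?_, sp,
      k3 2 (by omega), ?_⟩
    · exact (ch_one w _).append w (cQ _ List.mem_cons_self)
    · have : N ≤ (tri (K m) :: Q).length + 520 := by
        rw [List.length_cons, lQ]; omega
      have : (N : ℝ) ≤ (tri (K m) :: Q).length + 520 := by exact_mod_cast this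
      linarith
  let S' : Fin 3 → Finset β := fun i => S i \ (range (m + 1)).image fun j => K j i
  have hS' : ∀ i, (S' i).card = N - (m + 1) := by
    intro i
    have sub : ((range (m + 1)).image fun j => K j i) ⊆ S i := by
      intro x hx
      obtain ⟨j, hj, rfl⟩ := mem_image.1 hx
      exact k1 j (by simpa [Nat.lt_succ_iff] using hj) i
    rw [card_sdiff_of_subset sub, hS, card_image_of_injOn, card_range]
    intro j hj j' hj' h
    exact k2 j (by simpa [Nat.lt_succ_iff] using hj) j' (by simpa [Nat.lt_succ_iff] using hj') i h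
  have mS : ∀ i x, x ∈ S' i → x ∈ S i ∧ ∀ j ≤ m, x ≠ K j i := by
    intro i x hx
    obtain ⟨a, b⟩ := mem_sdiff.1 hx
    exact ⟨a, fun j hj e => b (mem_image.2 ⟨j, mem_range.2 (by omega), e.symm⟩)⟩
  obtain ⟨L, R, t, s, hR, gL, pL, cL, ts, lR, len⟩ :=
    ih (N - (m + 1)) (by omega) S' hS' (by omega)
  obtain ⟨Z, cZ, mZ, z1, z2⟩ := bridge w R (tri (K m)) (t := t) (s := s) (t' := K 0) (s' := K 1)
    (fun i => (ts i).2.2) (kn 0 (by omega) 1 (by omega) (by omega))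
    (fun i => ⟨(mS i _ (ts i).1).2 0 (by omega), (mS i _ (ts i).1).2 1 (by omega),
      (mS i _ (ts i).2.1).2 0 (by omega), (mS i _ (ts i).2.1).2 1 (by omega)⟩)
    lR (k3 0 (by omega))
  have mZ' : ∀ v ∈ Z, v.2 ∈ S v.1 ∧ ∀ j, 2 ≤ j → j ≤ m → v.2 ≠ K j v.1 := by
    intro v hv
    rcases mZ v hv with (h | h) | (h | h)
    · rw [h]; exact ⟨(mS _ _ (ts _).1).1, fun j _ hj => (mS _ _ (ts _).1).2 j hj⟩
    · rw [h]; exact ⟨(mS _ _ (ts _).2.1).1, fun j _ hj => (mS _ _ (ts _).2.1).2 j hj⟩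
    · rw [h]; exact ⟨k1 0 (by omega) _, fun j a hj => kn 0 (by omega) j hj (by omega) _⟩
    · rw [h]; exact ⟨k1 1 (by omega) _, fun j a hj => kn 1 (by omega) j hj (by omega) _⟩
  refine ⟨(L ++ [Z]) ++ (tri (K m) :: Q), tri (K m), K 2, K 3, by simp, ?_, ?_, ?_, sp,
    k3 2 (by omega), ?_⟩
  · intro X hX
    rcases List.mem_append.1 hX with hX | hX
    · rcases List.mem_append.1 hX with hX | hX
      · refine ⟨(gL X hX).1, fun v hv => ?_⟩
        have := mS _ _ ((gL X hX).2 v hv).1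
        exact ⟨this.1, this.2 2 (by omega), this.2 3 (by omega)⟩
      · rw [List.mem_singleton.1 hX]
        exact ⟨cZ, fun v hv => ⟨(mZ' v hv).1, (mZ' v hv).2 2 le_rfl (by omega),
          (mZ' v hv).2 3 (by omega) (by omega)⟩⟩
    · exact gQ X hX
  · refine List.pairwise_append.2 ⟨List.pairwise_append.2 ⟨pL, List.pairwise_singleton _ _, ?_⟩,
      pQ, ?_⟩
    · intro X hX Y hY v a b
      rw [List.mem_singleton.1 hY] at b
      obtain ⟨g1, g2, g3⟩ := (gL X hX).2 v a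
      rcases mZ v b with (h | h) | (h | h)
      · exact g2 h
      · exact g3 h
      · exact (mS _ _ g1).2 0 (by omega) h
      · exact (mS _ _ g1).2 1 (by omega) h
    · intro X hX Y hY v a b
      obtain ⟨j, j1, j2, rfl⟩ := hQ' Y hY
      rcases List.mem_append.1 hX with hX | hX
      · exact (mS _ _ ((gL X hX).2 v a).1).2 j j2 (mem_tri.1 b)
      · rw [List.mem_singleton.1 hX] at a
        exact (mZ' v a).2 j (by omega) j2 (mem_tri.1 b)
  · have c1 : Ch w (L ++ [Z]) := cL.append w fun X hX => by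
      rw [List.mem_singleton.1 hX]; exact ⟨R, hR, Or.inl z1⟩
    have c2 : Ch w ((L ++ [Z]) ++ [tri (K m)]) := c1.append w fun X hX => by
      rw [List.mem_singleton.1 hX]; exact ⟨Z, by simp, Or.inr z2⟩
    have c3 := c2.append w (cQ _ (by simp))
    rwa [List.append_assoc (L ++ [Z]), List.singleton_append] at c3
  · have e1 : ((L ++ [Z]) ++ (tri (K m) :: Q)).length + 2 = L.length + m := by
      simp only [List.length_append, List.length_cons, List.length_nil, lQ]; omega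
    have e2 : (((L ++ [Z]) ++ (tri (K m) :: Q)).length : ℝ) + 2 = L.length + m := by
      exact_mod_cast e1
    obtain ⟨P, hP⟩ : ∃ P, N = P + (m + 1) := ⟨N - (m + 1), by omega⟩
    have hP' : N - (m + 1) = P := by omega
    rw [hP'] at len hb
    have e3 : (N : ℝ) = P + (m + 1) := by exact_mod_cast hP
    have p0 : (0 : ℝ) < P := by exact_mod_cast (by omega : 0 < P)
    have n0 : (0 : ℝ) < N := by exact_mod_cast (by omega : 0 < N)
    have e4 : (N : ℝ) < 128 * (m + 1) := by exact_mod_cast hm2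
    have e5 : Real.log P - Real.log N ≤ P / N - 1 := by
      rw [← Real.log_div p0.ne' n0.ne']
      exact Real.log_le_sub_one_of_pos (div_pos p0 n0)
    have e6 : (P : ℝ) / N ≤ 127 / 128 := by
      rw [div_le_iff₀ n0]; linarith
    linarith

theorem final {n m : ℕ}
    (w : (Fin 3 × Fin n) × (Fin 3 × Fin n) → (Fin 3 × Fin n) × (Fin 3 × Fin n) → ZMod 2)
    (hK : VK w) (h : (m : ℝ) + 384 * Real.log n + 520 ≤ n) :
    ∃ L : Fin m → List (Fin 3 × Fin n), (∀ i, Cyc (L i)) ∧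
      (∀ i j, i ≠ j → (L i).Disjoint (L j)) ∧
      ∀ i : Fin m, 0 < i.1 → ∃ j, j < i ∧ (lk w (L j) (L i) = 1 ∨ lk w (L i) (L j) = 1) := by
  have lg : 0 ≤ Real.log n := Real.log_natCast_nonneg n
  have m0 : (0 : ℝ) ≤ m := Nat.cast_nonneg m
  have hn : 512 ≤ n := by
    have : (512 : ℝ) ≤ n := by linarith
    exact_mod_cast this
  obtain ⟨L, R, t, s, -, gL, pL, cL, -, -, len⟩ :=
    main w hK n (fun _ => univ) (fun _ => by simp) hn
  have hm : m ≤ L.length := by
    have : (m : ℝ) ≤ L.length := by linarith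
    exact_mod_cast this
  refine ⟨fun i => L[i.1]'(lt_of_lt_of_le i.2 hm), fun i => (gL _ (List.getElem_mem _)).1, ?_, ?_⟩
  · intro i j hij
    rw [List.pairwise_iff_getElem] at pL
    rcases lt_or_gt_of_ne hij with c | c
    · exact pL _ _ _ _ c
    · exact (pL _ _ _ _ c).symm
  · intro i hi
    obtain ⟨j, hj, q⟩ := cL i.1 (lt_of_lt_of_le i.2 hm) hi
    exact ⟨⟨j, hj.trans i.2⟩, hj, q⟩

end Pool.Agent.TL.Comb

namespace Pool.Agent.TL

theorem comb : CombS := by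
  refine ⟨520, by norm_num, fun n m w hK h => ?_⟩
  have lg : 0 ≤ Real.log n := Real.log_natCast_nonneg n
  obtain ⟨L, a, b, c⟩ := Comb.final (m := m) w hK (by linarith)
  refine ⟨L, fun i => ⟨(a i).2.1, (a i).1, (a i).2.2⟩, b, fun i hi => ?_⟩
  obtain ⟨j, hj, q⟩ := c i hi
  rw [Comb.lk_eq, Comb.lk_eq] at q
  exact ⟨j, hj, q⟩

end Pool.Agent.TL

namespace Pool.Agent.Lib.MP_4fe900_gt

open Pool.Agent.TL

theorem logS : LogSt := by
  refine ⟨904, fun n m h w hK => ?_⟩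
  have hV : Comb.VK w := by
    intro a b ha hb
    have := hK (fun i => (0, a i)) (fun j => (1, b j)) (fun i j e => ha (Prod.mk.inj e).2)
      (fun i j e => hb (Prod.mk.inj e).2) (fun i j e => absurd (Prod.mk.inj e).1 (by decide))
      (fun i j => rfl)
    rw [← this]
    exact Finset.sum_congr rfl fun i _ => Finset.sum_comm
  have hl : Real.log n ≤ Nat.log 2 n + 1 := by
    rcases Nat.eq_zero_or_pos n with rfl | hn
    · simp
    have h1 : (n : ℝ) ≤ 2 ^ (Nat.log 2 n + 1) := by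
      exact_mod_cast (Nat.lt_pow_succ_log_self (by norm_num : 1 < 2) n).le
    have h2 := Real.log_le_log (by exact_mod_cast hn) h1
    rw [Real.log_pow] at h2
    have h3 : Real.log 2 ≤ 1 := by linarith [Real.log_two_lt_d9]
    have h4 : (0 : ℝ) ≤ (Nat.log 2 n + 1 : ℕ) := Nat.cast_nonneg _
    have h5 := mul_le_mul_of_nonneg_left h3 h4
    push_cast at h2 h5
    linarith
  have h' : (m : ℝ) + 904 * (Nat.log 2 n : ℕ) + 904 ≤ n := by exact_mod_cast h
  have l0 : (0 : ℝ) ≤ (Nat.log 2 n : ℕ) := Nat.cast_nonneg _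
  obtain ⟨L, a, b, c⟩ := Comb.final (m := m) w hV (by linarith)
  refine ⟨L, a, fun i j hij => b i j hij, fun i hi => ?_⟩
  obtain ⟨j, hj, q⟩ := c i (Nat.pos_of_ne_zero hi)
  rw [Comb.lk_eq, Comb.lk_eq] at q
  exact ⟨j, hj, q⟩

end Pool.Agent.Lib.MP_4fe900_gt
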