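import Pool.Agent.Lib.MP_4fe900_gt.TL.Sep
import Pool.Agent.Lib.MP_4fe900_gt.St

/-! A crossing function adapted to an embedding and finitely many spheres. -/

namespace Pool.Agent.TL

open Metric Set Pool.Agent.Lib.MP_4fe900_gt

theorem fin_pos {ι : Type} [Finite ι] (P : ι → ℝ → Prop)
    (mono : ∀ i a b, a ≤ b → P i b → P i a) (h : ∀ i, ∃ d > 0, P i d) :
    ∃ d > 0, ∀ i, P i d := by
  choose f hf hP using h
  rcases isEmpty_or_nonempty ι with hι | hι
  · exact ⟨1, one_pos, fun i => isEmptyElim i⟩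
  · obtain ⟨i0, h0⟩ := Finite.exists_min f
    exact ⟨f i0, hf i0, fun i => mono i _ _ (h0 i) (hP i)⟩

theorem pos_dist {A B : Set E3} (hA : IsCompact A) (hB : IsCompact B) (h : Disjoint A B) :
    ∃ d > 0, ∀ a ∈ A, ∀ b ∈ B, d ≤ dist a b := by
  obtain ⟨d, hd, hm⟩ := (hA.prod hB).exists_forall_le' (f := fun x => dist x.1 x.2) (a := 0)
    (by fun_prop) (by
      intro x hx
      refine dist_pos.2 fun e => ?_
      exact Set.disjoint_left.1 h hx.1 (e ▸ hx.2))
  exact ⟨d, hd, fun a ha b hb => hm (a, b) ⟨ha, hb⟩⟩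

theorem chain_exists (γ : C(unitInterval, E3)) {δ : ℝ} (hδ : 0 < δ) :
    ∃ c : Ch, Bd c (γ 0) (γ 1) ∧ ∀ x ∈ c, x.1 ∈ range γ ∧ x.2 ∈ range γ ∧ dist x.1 x.2 ≤ δ := by
  obtain ⟨η, hη, hu⟩ := Metric.uniformContinuous_iff_le.1
    (CompactSpace.uniformContinuous_of_continuous γ.continuous) δ hδ
  obtain ⟨n, hn⟩ := exists_nat_one_div_lt hη
  have hN : (0:ℝ) < (n:ℝ) + 1 := by positivity
  let g : ℕ → E3 := fun k => γ (projIcc 0 1 zero_le_one ((k:ℝ) / (n + 1)))
  refine ⟨(Multiset.range (n + 1)).map fun k => (g k, g (k + 1)), fun φ => ?_, ?_⟩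
  · have : ∀ m : ℕ, ev ((Multiset.range m).map fun k => (g k, g (k + 1)))
        (fun p q => φ p + φ q) = φ (g 0) + φ (g m) := by
      intro m
      induction m with
      | zero => simp [ev, two0]
      | succ m ih =>
        rw [Multiset.range_succ, Multiset.map_cons, ← Multiset.singleton_add, ev_addc, ih]
        simp only [ev, Multiset.map_singleton, Multiset.sum_singleton]
        linear_combination two0 (φ (g m))
    rw [this]
    have e0 : g 0 = γ 0 := by simp [g]
    have e1 : g (n + 1) = γ 1 := by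
      have : (((n + 1 : ℕ):ℝ) / (n + 1)) = 1 := by push_cast; exact div_self hN.ne'
      simp only [g, this, projIcc_right]; rfl
    rw [e0, e1]
  · intro x hx
    obtain ⟨k, -, rfl⟩ := Multiset.mem_map.1 hx
    refine ⟨mem_range_self _, mem_range_self _, hu ?_⟩
    refine ((LipschitzWith.projIcc zero_le_one).dist_le_mul _ _).trans ?_
    rw [NNReal.coe_one, one_mul, Real.dist_eq, ← sub_div, abs_div, abs_of_pos hN]
    push_cast
    rw [show (k:ℝ) - (k + 1) = -1 by ring, abs_neg, abs_one]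
    exact hn.le

theorem ev_lsum {α : Type} (l : List α) (ch : α → Ch) (g : E3 → E3 → ZMod 2) :
    ev (l.map ch).sum g = (l.map fun e => ev (ch e) g).sum := by
  induction l with
  | nil => simp [ev]
  | cons a l ih => simp [ev_addc, ih]

theorem mem_lsum {α : Type} {l : List α} {ch : α → Ch} {x : E3 × E3} (h : x ∈ (l.map ch).sum) :
    ∃ e ∈ l, x ∈ ch e := by
  induction l with
  | nil => simp at h
  | cons a l ih =>
    rw [List.map_cons, List.sum_cons, Multiset.mem_add] at h
    rcases h with h | h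
    · exact ⟨a, List.mem_cons_self, h⟩
    · obtain ⟨e, he, hx⟩ := ih h
      exact ⟨e, List.mem_cons_of_mem _ he, hx⟩

theorem ev_lfun {α : Type} (l : List α) (c : Ch) (g : α → E3 → E3 → ZMod 2) :
    ev c (fun p q => (l.map fun e => g e p q).sum) = (l.map fun e => ev c (g e)).sum := by
  induction l with
  | nil => simp [ev]
  | cons a l ih => simp only [List.map_cons, List.sum_cons]; rw [ev_add, ih]

theorem lk_OM {V : Type} (ch : V × V → Ch) (X Y : List V) :
    lk (fun e f => OM (ch e) (ch f)) X Y = OM ((arcs X).map ch).sum ((arcs Y).map ch).sum := by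
  unfold lk OM
  rw [ev_lsum]
  congr 1
  refine List.map_congr_left fun e _ => ?_
  simp only [ev_lsum]
  rw [ev_lfun]

theorem arcs_sum {V : Type} (X : List V) (g : V → ZMod 2) :
    ((arcs X).map fun e => g e.1 + g e.2).sum = 0 := by
  have h1 : (arcs X).map Prod.fst = X := List.map_fst_zip (by simp)
  have h2 : (arcs X).map Prod.snd = X.rotate 1 := List.map_snd_zip (by simp)
  have e1 : ((arcs X).map fun e => g e.1).sum = (X.map g).sum := by
    conv_rhs => rw [← h1]
    rw [List.map_map]; rfl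
  have e2 : ((arcs X).map fun e => g e.2).sum = (X.map g).sum := by
    rw [← ((List.rotate_perm X 1).map g).sum_eq, ← h2, List.map_map]; rfl
  rw [List.sum_map_add, e1, e2, two0]

theorem arcs_fst {V : Type} {X : List V} {e : V × V} (h : e ∈ arcs X) : e.1 ∈ X :=
  (List.of_mem_zip h).1

theorem arcs_const {V β : Type} (X : List V) (f : V → β) (h : ∀ e ∈ arcs X, f e.1 = f e.2) :
    ∀ u ∈ X, ∀ v ∈ X, f u = f v := by
  have key : ∀ i (hi : i < X.length), f X[i] = f (X[0]'(by omega)) := by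
    intro i
    induction i with
    | zero => intro _; rfl
    | succ i ih =>
      intro hi
      have hl : i < (arcs X).length := by simp [arcs]; omega
      have := h _ (List.getElem_mem hl)
      simp only [arcs, List.getElem_zip, List.getElem_rotate, Nat.mod_eq_of_lt hi] at this
      rw [← this]; exact ih (by omega)
  intro u hu v hv
  obtain ⟨i, hi, rfl⟩ := List.getElem_of_mem hu
  obtain ⟨j, hj, rfl⟩ := List.getElem_of_mem hv
  rw [key i hi, key j hj]

theorem mem_img {V : Type} {r : V → V → Prop} (E : Emb r) {X : List V} {x : E3} :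
    x ∈ E.img X ↔ ∃ e ∈ arcs X, x ∈ range (E.arc e.1 e.2) := by
  simp only [Emb.img, mem_iUnion, exists_prop]

theorem img_comp {V : Type} {r : V → V → Prop} (E : Emb r) {X : List V}
    (hX : ∀ e ∈ arcs X, r e.1 e.2) {K : Set E3} (hd : Disjoint K (E.img X)) {x z : E3}
    (hx : x ∈ E.img X) (hz : z ∈ E.img X) : z ∈ connectedComponentIn Kᶜ x := by
  have sub : ∀ e ∈ arcs X, range (E.arc e.1 e.2) ⊆ Kᶜ := fun e he y hy hK =>
    Set.disjoint_left.1 hd hK ((mem_img E).2 ⟨e, he, hy⟩)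
  have one : ∀ e ∈ arcs X, ∀ y ∈ range (E.arc e.1 e.2),
      connectedComponentIn Kᶜ (E.pt e.1) = connectedComponentIn Kᶜ y := by
    intro e he y hy
    refine connectedComponentIn_eq ?_
    exact (isPreconnected_range (E.arc e.1 e.2).continuous).subset_connectedComponentIn
      ⟨0, E.src _ _ (hX e he)⟩ (sub e he) hy
  obtain ⟨e, he, hxe⟩ := (mem_img E).1 hx
  obtain ⟨f, hf, hzf⟩ := (mem_img E).1 hz
  have := arcs_const X (fun v => connectedComponentIn Kᶜ (E.pt v))
    (fun e he => one e he _ ⟨1, E.tgt _ _ (hX e he)⟩) _ (arcs_fst he) _ (arcs_fst hf)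
  rw [← one e he x hxe, this, one f hf z hzf]
  exact mem_connectedComponentIn (sub f hf hzf)

theorem arc_disj {V : Type} {r : V → V → Prop} (E : Emb r) {u v u' v' : V} (h : r u v)
    (h' : r u' v') (h1 : u ≠ u') (h2 : u ≠ v') (h3 : v ≠ u') (h4 : v ≠ v') :
    Disjoint (range (E.arc u v)) (range (E.arc u' v')) := by
  rw [Set.disjoint_left]
  rintro _ ⟨s, rfl⟩ ⟨t, ht⟩
  obtain ⟨w, hw⟩ := E.meet u v u' v' s t h h' (fun e => h1 (congrArg Prod.fst e)) ht.symm
  rcases E.arc_pt u v w s h hw with rfl | rfl <;>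
    rcases E.arc_pt u' v' _ t h' (ht.trans hw) with e | e <;> simp_all

theorem top0 {V J : Type} [Finite V] [Finite J] {r : V → V → Prop} (E : Emb r)
    (h : J → C(sphere (0:E3) 1, E3)) (hi : ∀ j, Function.Injective (h j)) :
    ∃ w : V × V → V × V → ZMod 2,
      (∀ a b : Fin 3 → V, Function.Injective a → Function.Injective b → (∀ i j, a i ≠ b j) →
        (∀ i j, r (a i) (b j)) →
        (∑ i, ∑ j, ∑ i', ∑ j', if i ≠ i' ∧ j ≠ j' then w (a i, b j) (a i', b j') else 0) = 1) ∧
      ∀ j X Y, (∀ e ∈ arcs X, r e.1 e.2) → (∀ e ∈ arcs Y, r e.1 e.2) →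
        Disjoint (range (h j)) (E.img X) → Disjoint (range (h j)) (E.img Y) → lk w X Y = 1 →
        ∀ x ∈ E.img X, ∀ y ∈ E.img Y, y ∈ connectedComponentIn (range (h j))ᶜ x := by
  obtain ⟨D1, hD1, H1⟩ := fin_pos (ι := (V × V) × (V × V))
    (fun z d => Disjoint (range (E.arc z.1.1 z.1.2)) (range (E.arc z.2.1 z.2.2)) →
      ∀ a ∈ range (E.arc z.1.1 z.1.2), ∀ b ∈ range (E.arc z.2.1 z.2.2), d ≤ dist a b)
    (fun z a b hab hb hd x hx y hy => hab.trans (hb hd x hx y hy)) (by
      intro z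
      by_cases hd : Disjoint (range (E.arc z.1.1 z.1.2)) (range (E.arc z.2.1 z.2.2))
      · obtain ⟨d, d0, hd'⟩ := pos_dist (isCompact_range (map_continuous _))
          (isCompact_range (map_continuous _)) hd
        exact ⟨d, d0, fun _ => hd'⟩
      · exact ⟨1, one_pos, fun hh => absurd hh hd⟩)
  obtain ⟨D2, hD2, H2⟩ := fin_pos (ι := J × (V × V))
    (fun z d => Disjoint (range (h z.1)) (range (E.arc z.2.1 z.2.2)) →
      ∀ a ∈ range (h z.1), ∀ b ∈ range (E.arc z.2.1 z.2.2), d ≤ dist a b)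
    (fun z a b hab hb hd x hx y hy => hab.trans (hb hd x hx y hy)) (by
      intro z
      by_cases hd : Disjoint (range (h z.1)) (range (E.arc z.2.1 z.2.2))
      · obtain ⟨d, d0, hd'⟩ := pos_dist (isCompact_range (map_continuous _))
          (isCompact_range (map_continuous _)) hd
        exact ⟨d, d0, fun _ => hd'⟩
      · exact ⟨1, one_pos, fun hh => absurd hh hd⟩)
  obtain ⟨R, hR⟩ : ∃ R : ℝ, (⋃ e : V × V, range (E.arc e.1 e.2)) ⊆ closedBall 0 R :=
    (isCompact_iUnion fun e : V × V =>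
      isCompact_range (map_continuous (E.arc e.1 e.2))).isBounded.subset_closedBall 0
  choose δj hδj Hj using fun j => sep (h j) (hi j) R hD2
  obtain ⟨δ0, hδ0, H0⟩ := fin_pos (fun j d => d ≤ δj j) (fun _ _ _ hab hb => hab.trans hb)
    (fun j => ⟨δj j, hδj j, le_rfl⟩)
  have hδ : 0 < min δ0 (D1 / 7) := by positivity
  choose ch hbd hch using fun e : V × V => chain_exists (E.arc e.1 e.2) hδ
  have hbd' : ∀ e : V × V, r e.1 e.2 → Bd (ch e) (E.pt e.1) (E.pt e.2) := fun e he => by
    rw [← E.src _ _ he, ← E.tgt _ _ he]; exact hbd e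
  refine ⟨fun e f => OM (ch e) (ch f), fun a b ha hb hab hr => ?_, ?_⟩
  · refine vk (fun i => E.pt (a i)) (fun j => E.pt (b j)) (fun i j => ch (a i, b j))
      (t := D1 / 7) (fun i j => hbd' (a i, b j) (hr i j))
      (fun i j x hx => (hch _ x hx).2.2.trans (min_le_right _ _)) ?_ ?_ ?_ ?_
    · intro i j i' j' h1 h2 x hx y hy
      have := H1 ((a i, b j), (a i', b j')) (arc_disj E (hr i j) (hr i' j') (ha.ne h1) (hab i j')
        (hab i' j).symm (hb.ne h2)) _ (hch _ x hx).1 _ (hch _ y hy).1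
      linarith
    · intro i j i' h1 x hx
      have : ∀ z ∈ range (E.arc (a i) (b j)), E.pt (a i') ≠ z := by
        rintro _ ⟨s, rfl⟩ e
        rcases E.arc_pt _ _ _ s (hr i j) e.symm with e' | e'
        · exact h1 (ha e').symm
        · exact hab _ _ e'
      exact ⟨this _ (hch _ x hx).1, this _ (hch _ x hx).2.1⟩
    · intro i j j' h1 x hx
      have : ∀ z ∈ range (E.arc (a i) (b j)), E.pt (b j') ≠ z := by
        rintro _ ⟨s, rfl⟩ e
        rcases E.arc_pt _ _ _ s (hr i j) e.symm with e' | e'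
        · exact hab _ _ e'.symm
        · exact h1 (hb e').symm
      exact ⟨this _ (hch _ x hx).1, this _ (hch _ x hx).2.1⟩
    · intro j j' h1 e
      exact h1 (hb (E.pt_inj e))
  · intro j X Y hX hY dX dY hl x hx y hy
    by_contra hn
    have cyc : ∀ Z : List V, (∀ e ∈ arcs Z, r e.1 e.2) → Cyc ((arcs Z).map ch).sum := by
      intro Z hZ g
      rw [ev_lsum, ← arcs_sum Z (fun v => g (E.pt v))]
      congr 1
      exact List.map_congr_left fun e he => hbd' e (hZ e he) g
    have sm : ∀ Z : List V, ∀ z ∈ ((arcs Z).map ch).sum, dist z.1 z.2 ≤ δj j := by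
      intro Z z hz
      obtain ⟨e, -, he⟩ := mem_lsum hz
      exact (hch e z he).2.2.trans ((min_le_left _ _).trans (H0 j))
    have := Hj j _ _ x (cyc X hX) (cyc Y hY) (sm X) (sm Y) (by
      intro z hz
      obtain ⟨e, he, hz'⟩ := mem_lsum hz
      obtain ⟨a1, a2, -⟩ := hch e z hz'
      exact ⟨img_comp E hX dX hx ((mem_img E).2 ⟨e, he, a1⟩),
        img_comp E hX dX hx ((mem_img E).2 ⟨e, he, a2⟩),
        hR (mem_iUnion.2 ⟨e, a1⟩), hR (mem_iUnion.2 ⟨e, a2⟩)⟩) (by
      intro z hz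
      obtain ⟨e, he, hz'⟩ := mem_lsum hz
      obtain ⟨a1, -, -⟩ := hch e z hz'
      refine ⟨fun hU => hn ?_, fun k hk => H2 (j, e) ?_ k hk _ a1⟩
      · rw [connectedComponentIn_eq hU]
        exact img_comp E hY dY ((mem_img E).2 ⟨e, he, a1⟩) hy
      · exact dY.mono_right (show range (E.arc e.1 e.2) ⊆ E.img Y from
          fun q hq => (mem_img E).2 ⟨e, he, hq⟩))
    rw [lk_OM, this] at hl
    exact zero_ne_one hl

theorem img_ne {V : Type} {r : V → V → Prop} (E : Emb r) {X : List V} (h : X ≠ []) :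
    (E.img X).Nonempty := by
  have hl : 0 < (arcs X).length := by
    simp only [arcs, List.length_zip, List.length_rotate, min_self]
    exact List.length_pos_iff.2 h
  exact ⟨_, (mem_img E).2 ⟨_, List.getElem_mem hl, mem_range_self 0⟩⟩

theorem top : TopSt := by
  classical
  intro V _ r E
  let bad : List V → List V → C(sphere (0:E3) 1, E3) → Prop := fun X Y f =>
    Function.Injective f ∧ Disjoint (range f) (E.img X) ∧ Disjoint (range f) (E.img Y) ∧
      ¬ ∃ x ∈ E.img X, ∃ y ∈ E.img Y, y ∈ connectedComponentIn (range f)ᶜ x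
  let J := {p : {l : List V // l.Nodup} × {l : List V // l.Nodup} // ∃ f, bad p.1.1 p.2.1 f}
  obtain ⟨w, hK, hN⟩ := top0 (J := J) E (fun j => j.2.choose) (fun j => j.2.choose_spec.1)
  refine ⟨w, fun a b ha hb hab hr => ?_, fun X Y hX hY _ hl f hf hi dX dY => ?_⟩
  · rw [← hK a b ha hb hab hr]
    exact Finset.sum_congr rfl fun i _ => Finset.sum_comm
  · by_contra hn
    let j : J := ⟨(⟨X, hX.2.1⟩, ⟨Y, hY.2.1⟩), ⟨f, hf⟩, hi, dX, dY, hn⟩
    obtain ⟨-, b1, b2, b3⟩ := j.2.choose_spec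
    obtain ⟨x, hx⟩ := img_ne E hX.1
    obtain ⟨y, hy⟩ := img_ne E hY.1
    exact b3 ⟨x, hx, y, hy, hN j X Y hX.2.2 hY.2.2 b1 b2 hl x hx y hy⟩

end Pool.Agent.TL
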