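import Pool.Agent.Lib.MP_4fe900_gt.TL.Cr

/-! Small scale mod 2 cocycles on balls and on embedded spheres are coboundaries. -/

namespace Pool.Agent.TL

open Metric Set

/-- cocycle condition on triples of size at most `t` in `K` -/
def Coc (c : E3 → E3 → ZMod 2) (K : Set E3) (t : ℝ) : Prop :=
  ∀ p ∈ K, ∀ q ∈ K, ∀ u ∈ K, dist p q ≤ t → dist p u ≤ t → c p q + c q u + c u p = 0

/-- coboundary condition on pairs of size at most `t` in `K` -/
def Cob (c : E3 → E3 → ZMod 2) (K : Set E3) (t : ℝ) : Prop :=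
  ∃ σ : E3 → ZMod 2, ∀ p ∈ K, ∀ q ∈ K, dist p q ≤ t → c p q = σ p + σ q

theorem Coc.self {c K t} (h : Coc c K t) (ht : 0 ≤ t) {p : E3} (hp : p ∈ K) : c p p = 0 := by
  have := h p hp p hp p hp (by simpa using ht) (by simpa using ht)
  linear_combination this - two0 (c p p)

theorem Coc.symm {c K t} (h : Coc c K t) {p q : E3} (hp : p ∈ K) (hq : q ∈ K)
    (hd : dist p q ≤ t) : c q p = c p q := by
  have ht : 0 ≤ t := dist_nonneg.trans hd
  have h1 := h p hp q hq p hp hd (by simpa using ht)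
  have h2 := h.self ht hp
  linear_combination h1 - h2 - two0 (c p q)

theorem contr {K K' : Set E3} (hK : IsCompact K) (H : ℝ × E3 → E3) (o : E3)
    (hH : ContinuousOn H (Icc (0:ℝ) 1 ×ˢ K)) (h0 : ∀ p ∈ K, H (0, p) = o)
    (h1 : ∀ p ∈ K, H (1, p) = p) (hm : ∀ s ∈ Icc (0:ℝ) 1, ∀ p ∈ K, H (s, p) ∈ K')
    {t : ℝ} (ht : 0 < t) : ∃ η > 0, ∀ c, Coc c K' t → Cob c K η := by
  have hU := (isCompact_Icc.prod hK).uniformContinuousOn_of_continuous hH
  obtain ⟨η, hη, hu⟩ := Metric.uniformContinuousOn_iff_le.1 hU t ht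
  obtain ⟨n, hn⟩ := exists_nat_one_div_lt hη
  refine ⟨η, hη, fun c hc => ?_⟩
  have hN : (0:ℝ) < (n:ℝ) + 1 := by positivity
  have hI : ∀ k : ℕ, k ≤ n + 1 → ((k:ℝ) / (n + 1)) ∈ Icc (0:ℝ) 1 := by
    intro k hk
    refine ⟨by positivity, (div_le_one hN).2 ?_⟩
    exact_mod_cast hk
  refine ⟨fun p => ∑ k ∈ Finset.range (n + 1),
    c (H ((k:ℝ) / (n + 1), p)) (H (((k + 1 : ℕ):ℝ) / (n + 1), p)), fun p hp q hq hpq => ?_⟩
  have close : ∀ k l : ℕ, k ≤ n + 1 → l ≤ n + 1 → (l = k ∨ l = k + 1) → ∀ a ∈ K, ∀ b ∈ K,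
      dist a b ≤ η → dist (H ((k:ℝ) / (n + 1), a)) (H ((l:ℝ) / (n + 1), b)) ≤ t := by
    intro k l hk hl hkl a ha b hb hab
    refine hu _ ⟨hI k hk, ha⟩ _ ⟨hI l hl, hb⟩ ?_
    rw [Prod.dist_eq]
    refine max_le ?_ hab
    rcases hkl with rfl | rfl
    · simpa using hη.le
    · rw [Real.dist_eq, ← sub_div, abs_div, abs_of_pos hN]
      push_cast
      rw [show (k:ℝ) - (k + 1) = -1 by ring, abs_neg, abs_one]
      exact hn.le
  have key : ∀ m : ℕ, m ≤ n + 1 → c (H ((m:ℝ) / (n + 1), p)) (H ((m:ℝ) / (n + 1), q)) =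
      (∑ k ∈ Finset.range m, c (H ((k:ℝ) / (n + 1), p)) (H (((k + 1 : ℕ):ℝ) / (n + 1), p))) +
      ∑ k ∈ Finset.range m, c (H ((k:ℝ) / (n + 1), q)) (H (((k + 1 : ℕ):ℝ) / (n + 1), q)) := by
    intro m
    induction m with
    | zero =>
      intro _
      have ho : o ∈ K' := by rw [← h0 p hp]; exact hm 0 ⟨le_rfl, zero_le_one⟩ p hp
      simp [h0 p hp, h0 q hq, hc.self ht.le ho]
    | succ m ih =>
      intro hm1
      have hm0 : m ≤ n + 1 := by omega
      rw [Finset.sum_range_succ, Finset.sum_range_succ]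
      have i0 := ih hm0
      have a0 := hm _ (hI m hm0) p hp
      have a1 := hm _ (hI (m + 1) hm1) p hp
      have b0 := hm _ (hI m hm0) q hq
      have b1 := hm _ (hI (m + 1) hm1) q hq
      have hqp : dist q p ≤ η := by rwa [dist_comm]
      have d1 := close m (m + 1) hm0 hm1 (Or.inr rfl) p hp p hp (by simpa using hη.le)
      have d2 := close m m hm0 hm0 (Or.inl rfl) p hp q hq hpq
      have d3 := close m (m + 1) hm0 hm1 (Or.inr rfl) q hq p hp hqp
      have d4 := close m (m + 1) hm0 hm1 (Or.inr rfl) q hq q hq (by simpa using hη.le)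
      have t1 := hc _ a0 _ a1 _ b0 d1 d2
      have t2 := hc _ b0 _ a1 _ b1 d3 d4
      have s1 := hc.symm a0 b0 d2
      have s2 := hc.symm b0 a1 d3
      have s3 := hc.symm b0 b1 d4
      linear_combination (norm := (ring_nf; reduce_mod_char; try ring_nf))
        t1 + t2 + s1 + s2 + s3 + i0
  have := key (n + 1) le_rfl
  have e : (((n + 1 : ℕ):ℝ) / (n + 1)) = 1 := by push_cast; exact div_self hN.ne'
  rw [e, h1 p hp, h1 q hq] at this
  exact this

theorem as_ball (R : ℝ) {t : ℝ} (ht : 0 < t) :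
    ∃ η > 0, ∀ c, Coc c (closedBall 0 R) t → Cob c (closedBall 0 R) η := by
  refine contr (isCompact_closedBall 0 R) (fun x => x.1 • x.2) 0 (by fun_prop) (by simp) (by simp)
    ?_ ht
  intro s hs p hp
  rw [mem_closedBall_zero_iff] at hp ⊢
  rw [norm_smul, Real.norm_of_nonneg hs.1]
  nlinarith [norm_nonneg p, hs.1, hs.2]

theorem sph_iff (p : E3) : p ∈ sphere (0:E3) 1 ↔ p 0 ^ 2 + p 1 ^ 2 + p 2 ^ 2 = 1 := by
  rw [mem_sphere_zero_iff_norm, EuclideanSpace.norm_eq, Real.sqrt_eq_one, Fin.sum_univ_three]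
  simp [sq_abs]

theorem as_cap (e : ℝ) (he : e ^ 2 = 1) {t : ℝ} (ht : 0 < t) : ∃ η > 0, ∀ c, Coc c (sphere 0 1) t →
    Cob c (sphere (0:E3) 1 ∩ {p | -(1/2) ≤ e * p 2}) η := by
  set N : E3 := !₂[0, 0, e] with hN
  have hNs : ‖N‖ = 1 := by
    rw [← mem_sphere_zero_iff_norm, sph_iff]; simp [hN, he]
  have hne : ∀ s : ℝ, ∀ p ∈ sphere (0:E3) 1 ∩ {p | -(1/2) ≤ e * p 2},
      (1 - s) • N + s • p ≠ 0 := by
    intro s p hp h
    have hp1 := (sph_iff p).1 hp.1
    have hp2 : -(1/2) ≤ e * p 2 := hp.2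
    have c0 := congrArg (fun v : E3 => v 0) h
    have c1 := congrArg (fun v : E3 => v 1) h
    have c2 := congrArg (fun v : E3 => v 2) h
    simp only [hN, PiLp.add_apply, PiLp.smul_apply, smul_eq_mul, PiLp.zero_apply] at c0 c1 c2
    simp only [Matrix.cons_val_zero, Matrix.cons_val_one, Matrix.cons_val] at c0 c1 c2
    have : 1 + e * p 2 = 0 := by
      linear_combination p 0 * c0 + p 1 * c1 + (p 2 + e) * c2 - s * hp1 - (1 - s) * he
    linarith
  refine contr ((isCompact_sphere 0 1).inter_right (isClosed_le (by fun_prop) (by fun_prop)))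
    (fun x => ‖(1 - x.1) • N + x.1 • x.2‖⁻¹ • ((1 - x.1) • N + x.1 • x.2)) N ?_ ?_ ?_ ?_ ht
  · have hc : Continuous fun x : ℝ × E3 => (1 - x.1) • N + x.1 • x.2 := by fun_prop
    exact (hc.norm.continuousOn.inv₀
      fun x hx => norm_ne_zero_iff.2 (hne x.1 x.2 hx.2)).smul hc.continuousOn
  · intro p _; simp [hNs]
  · intro p hp
    have : ‖p‖ = 1 := mem_sphere_zero_iff_norm.1 hp.1
    simp [this]
  · intro s _ p hp
    rw [mem_sphere_zero_iff_norm, norm_smul, norm_inv, norm_norm]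
    exact inv_mul_cancel₀ (norm_ne_zero_iff.2 (hne s p hp))

theorem band_conn : IsPreconnected (sphere (0:E3) 1 ∩ {p | |p 2| ≤ 1/2}) := by
  have hc : IsPreconnected (sphere (0:ℂ) 1 ×ˢ Icc (-(1/2):ℝ) (1/2)) :=
    ((isConnected_sphere (by simp) (0:ℂ) zero_le_one).isPreconnected).prod isPreconnected_Icc
  have hf : Continuous fun x : ℂ × ℝ =>
      (!₂[√(1 - x.2 ^ 2) * x.1.re, √(1 - x.2 ^ 2) * x.1.im, x.2] : E3) := by fun_prop
  convert hc.image _ hf.continuousOn using 1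
  ext p
  constructor
  · rintro ⟨h1, h2⟩
    have h1' := (sph_iff p).1 h1
    have h2' := abs_le.1 (show |p 2| ≤ 1/2 from h2)
    have hp : 0 < 1 - p 2 ^ 2 := by nlinarith [h2'.1, h2'.2]
    have hs : 0 < √(1 - p 2 ^ 2) := Real.sqrt_pos.2 hp
    have hq : √(1 - p 2 ^ 2) ^ 2 = 1 - p 2 ^ 2 := Real.sq_sqrt hp.le
    refine ⟨(⟨p 0 / √(1 - p 2 ^ 2), p 1 / √(1 - p 2 ^ 2)⟩, p 2), ⟨?_, h2'⟩, ?_⟩
    · rw [mem_sphere_zero_iff_norm, Complex.norm_eq_sqrt_sq_add_sq, Real.sqrt_eq_one]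
      simp only [div_pow, hq]
      field_simp
      linarith
    · refine ext3 ?_ ?_ ?_ <;> simp <;> field_simp
  · rintro ⟨⟨z, s⟩, ⟨hz, hs⟩, rfl⟩
    have hz' : z.re ^ 2 + z.im ^ 2 = 1 := by
      rw [mem_sphere_zero_iff_norm, Complex.norm_eq_sqrt_sq_add_sq, Real.sqrt_eq_one] at hz
      exact hz
    have hs1 : -(1/2) ≤ s := hs.1
    have hs2 : s ≤ 1/2 := hs.2
    have hq : √(1 - s ^ 2) ^ 2 = 1 - s ^ 2 := Real.sq_sqrt (by nlinarith)
    refine ⟨(sph_iff _).2 ?_, ?_⟩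
    · simp only [Matrix.cons_val_zero, Matrix.cons_val_one, Matrix.cons_val, mul_pow, hq]
      linear_combination (1 - s ^ 2) * hz'
    · show |(!₂[√(1 - s ^ 2) * z.re, √(1 - s ^ 2) * z.im, s] : E3) 2| ≤ 1/2
      simp only [Matrix.cons_val]
      exact abs_le.2 ⟨hs1, hs2⟩

theorem as_sphere {t : ℝ} (ht : 0 < t) :
    ∃ η > 0, ∀ c, Coc c (sphere 0 1) t → Cob c (sphere 0 1) η := by
  obtain ⟨η1, h1, H1⟩ := as_cap 1 (by norm_num) ht
  obtain ⟨η2, h2, H2⟩ := as_cap (-1) (by norm_num) ht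
  refine ⟨min (min η1 η2) (1/2), by positivity, fun c hc => ?_⟩
  obtain ⟨σ1, e1⟩ := H1 c hc
  obtain ⟨σ2, e2⟩ := H2 c hc
  set B := sphere (0:E3) 1 ∩ {p | |p 2| ≤ 1/2} with hB
  have m1 : ∀ p ∈ sphere (0:E3) 1, -(1/2) ≤ p 2 →
      p ∈ sphere (0:E3) 1 ∩ {p | -(1/2) ≤ 1 * p 2} := fun p hp h => ⟨hp, by simpa using h⟩
  have m2 : ∀ p ∈ sphere (0:E3) 1, p 2 ≤ 1/2 →
      p ∈ sphere (0:E3) 1 ∩ {p | -(1/2) ≤ -1 * p 2} := fun p hp h =>
    ⟨hp, by show -(1/2) ≤ -1 * p 2; linarith⟩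
  have hcont : ContinuousOn (fun p => σ1 p + σ2 p) B := by
    intro p hp
    refine (continuousWithinAt_const (b := σ1 p + σ2 p)).congr_of_eventuallyEq ?_ rfl
    filter_upwards [self_mem_nhdsWithin,
      mem_nhdsWithin_of_mem_nhds (closedBall_mem_nhds p (lt_min h1 h2))] with q hq hd
    have ap := abs_le.1 (show |p 2| ≤ 1/2 from hp.2)
    have aq := abs_le.1 (show |q 2| ≤ 1/2 from hq.2)
    have hd' : dist q p ≤ min η1 η2 := hd
    have f1 := e1 q (m1 q hq.1 aq.1) p (m1 p hp.1 ap.1) (hd'.trans (min_le_left _ _))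
    have f2 := e2 q (m2 q hq.1 aq.2) p (m2 p hp.1 ap.2) (hd'.trans (min_le_right _ _))
    linear_combination (norm := (ring_nf; reduce_mod_char; try ring_nf)) f1 + f2
  have hb : (!₂[1, 0, 0] : E3) ∈ B := ⟨(sph_iff _).2 (by simp), by
    show |(!₂[1, 0, 0] : E3) 2| ≤ 1/2
    simp⟩
  set κ := σ1 !₂[1, 0, 0] + σ2 !₂[1, 0, 0] with hκ
  have hk : ∀ p ∈ B, σ1 p + σ2 p = κ := fun p hp => band_conn.constant hcont hp hb
  classical
  refine ⟨fun p => if 0 ≤ p 2 then σ1 p else σ2 p + κ, fun p hp q hq hd => ?_⟩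
  have hd1 : dist p q ≤ η1 := hd.trans ((min_le_left _ _).trans (min_le_left _ _))
  have hd2 : dist p q ≤ η2 := hd.trans ((min_le_left _ _).trans (min_le_right _ _))
  have hd3 := abs_le.1 ((co_le p q 2).trans (hd.trans (min_le_right _ _)))
  by_cases a : 0 ≤ p 2 <;> by_cases b : 0 ≤ q 2 <;> simp only [a, b, if_true, if_false]
  · exact e1 p (m1 p hp (by linarith)) q (m1 q hq (by linarith)) hd1
  · have := hk q ⟨hq, (abs_le (a := q 2)).2 ⟨by linarith [hd3.2], by linarith⟩⟩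
    rw [e1 p (m1 p hp (by linarith)) q (m1 q hq (by linarith [hd3.2])) hd1]
    linear_combination (norm := (ring_nf; reduce_mod_char; try ring_nf)) this
  · have := hk p ⟨hp, (abs_le (a := p 2)).2 ⟨by linarith [hd3.1], by linarith⟩⟩
    rw [e1 p (m1 p hp (by linarith [hd3.1])) q (m1 q hq (by linarith)) hd1]
    linear_combination (norm := (ring_nf; reduce_mod_char; try ring_nf)) this
  · rw [e2 p (m2 p hp (by linarith)) q (m2 q hq (by linarith)) hd2]
    linear_combination (norm := (ring_nf; reduce_mod_char; try ring_nf))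

theorem as_emb (h : C(sphere (0:E3) 1, E3)) (hi : Function.Injective h) {t : ℝ} (ht : 0 < t) :
    ∃ η > 0, ∀ c, Coc c (range h) t → Cob c (range h) η := by
  classical
  obtain ⟨t', ht', hu⟩ := Metric.uniformContinuous_iff_le.1
    (CompactSpace.uniformContinuous_of_continuous h.continuous) t ht
  obtain ⟨η', hη', H⟩ := as_sphere ht'
  have hK : IsCompact {x : sphere (0:E3) 1 × sphere (0:E3) 1 | η' ≤ dist x.1 x.2} :=
    (isClosed_le (by fun_prop) (by fun_prop)).isCompact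
  obtain ⟨η, hη, hm⟩ := hK.exists_forall_le' (f := fun x => dist (h x.1) (h x.2)) (a := 0)
    (by fun_prop) (by
      intro x hx
      refine dist_pos.2 fun e => ?_
      have : η' ≤ dist x.1 x.2 := hx
      rw [hi e, dist_self] at this
      linarith)
  refine ⟨η / 2, by positivity, fun c hc => ?_⟩
  let g : E3 → E3 := fun p => if hp : p ∈ sphere (0:E3) 1 then h ⟨p, hp⟩ else 0
  have hg : ∀ x : sphere (0:E3) 1, g x = h x := fun x => by simp only [g, x.2, dif_pos]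
  obtain ⟨σ, hσ⟩ := H (fun p q => c (g p) (g q)) (by
    intro p hp q hq u hu' d1 d2
    have e1 := hg ⟨p, hp⟩; have e2 := hg ⟨q, hq⟩; have e3 := hg ⟨u, hu'⟩
    simp only at e1 e2 e3
    simp only [e1, e2, e3]
    exact hc _ (mem_range_self _) _ (mem_range_self _) _ (mem_range_self _) (hu d1) (hu d2))
  haveI : Nonempty (sphere (0:E3) 1) := ⟨⟨!₂[1, 0, 0], (sph_iff _).2 (by simp)⟩⟩
  refine ⟨fun p => σ (Function.invFun h p : sphere (0:E3) 1), ?_⟩
  rintro _ ⟨x, rfl⟩ _ ⟨y, rfl⟩ hd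
  simp only [Function.leftInverse_invFun hi x, Function.leftInverse_invFun hi y]
  have hxy : dist x y ≤ η' := by
    by_contra hc'
    have := hm (x, y) (le_of_lt (not_le.1 hc'))
    simp only at this
    linarith
  have := hσ x x.2 y y.2 hxy
  simpa only [hg] using this

end Pool.Agent.TL
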