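import Mathlib

/-! Mod 2 crossing calculus for chains of point pairs (no general position needed). -/

namespace Pool.Agent.TL

abbrev E3 := EuclideanSpace ℝ (Fin 3)

abbrev Ch := Multiset (E3 × E3)

/-- evaluation of a function of pairs on a chain -/
def ev (c : Ch) (g : E3 → E3 → ZMod 2) : ZMod 2 := (c.map fun x => g x.1 x.2).sum

theorem ev_zero (g : E3 → E3 → ZMod 2) : ev 0 g = 0 := by simp [ev]

theorem ev_addc (c d : Ch) (g : E3 → E3 → ZMod 2) : ev (c + d) g = ev c g + ev d g := by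
  simp [ev]

theorem ev_add (c : Ch) (g g' : E3 → E3 → ZMod 2) :
    ev c (fun p q => g p q + g' p q) = ev c g + ev c g' := by
  simp [ev, Multiset.sum_map_add]

theorem ev_congr {c : Ch} {g g' : E3 → E3 → ZMod 2} (h : ∀ x ∈ c, g x.1 x.2 = g' x.1 x.2) :
    ev c g = ev c g' := by
  unfold ev; rw [Multiset.map_congr rfl h]

theorem ev_fzero (c : Ch) : ev c (fun _ _ => 0) = 0 := by simp [ev]

theorem ev_comm (c d : Ch) (f : E3 → E3 → E3 → E3 → ZMod 2) :
    ev c (fun p q => ev d (fun r s => f p q r s)) = ev d (fun r s => ev c (fun p q => f p q r s)) := by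
  unfold ev; exact Multiset.sum_map_sum_map _ _

theorem ev_mul (c : Ch) (a : ZMod 2) (g : E3 → E3 → ZMod 2) :
    ev c (fun p q => a * g p q) = a * ev c g := by
  simp [ev, Multiset.sum_map_mul_left]

/-- the chain has boundary `u + v` -/
def Bd (c : Ch) (u v : E3) : Prop := ∀ g : E3 → ZMod 2, ev c (fun p q => g p + g q) = g u + g v

/-- the chain is closed -/
def Cyc (c : Ch) : Prop := ∀ g : E3 → ZMod 2, ev c (fun p q => g p + g q) = 0

open Classical in
noncomputable def xo (a b : E3) : ZMod 2 :=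
  if a 0 < b 0 ∨ (a 0 = b 0 ∧ (a 1 < b 1 ∨ (a 1 = b 1 ∧ a 2 < b 2))) then 1 else 0

open Classical in
noncomputable def yo (a b : E3) : ZMod 2 :=
  if a 1 < b 1 ∨ (a 1 = b 1 ∧ (a 0 < b 0 ∨ (a 0 = b 0 ∧ a 2 < b 2))) then 1 else 0

open Classical in
noncomputable def zo (t s : ℝ) : ZMod 2 := if s < t then 1 else 0

theorem ext3 {a b : E3} (h0 : a 0 = b 0) (h1 : a 1 = b 1) (h2 : a 2 = b 2) : a = b := by
  ext i; fin_cases i <;> simpa

theorem xo_anti {a b : E3} (h : a ≠ b) : xo b a = 1 + xo a b := by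
  have e2 : (1 + 1 : ZMod 2) = 0 := by decide
  unfold xo
  rcases lt_trichotomy (a 0) (b 0) with h0 | h0 | h0
  · simp [h0, not_lt.2 h0.le, h0.ne', e2]
  · rcases lt_trichotomy (a 1) (b 1) with h1 | h1 | h1
    · simp [h0, h1, not_lt.2 h1.le, h1.ne', e2]
    · rcases lt_trichotomy (a 2) (b 2) with h2 | h2 | h2
      · simp [h0, h1, h2, not_lt.2 h2.le, e2]
      · exact absurd (ext3 h0 h1 h2) h
      · simp [h0, h1, h2, not_lt.2 h2.le]
    · simp [h0, h1, not_lt.2 h1.le, h1.ne']
  · simp [h0, not_lt.2 h0.le, h0.ne']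

theorem yo_anti {a b : E3} (h : a ≠ b) : yo b a = 1 + yo a b := by
  have e2 : (1 + 1 : ZMod 2) = 0 := by decide
  unfold yo
  rcases lt_trichotomy (a 1) (b 1) with h0 | h0 | h0
  · simp [h0, not_lt.2 h0.le, h0.ne', e2]
  · rcases lt_trichotomy (a 0) (b 0) with h1 | h1 | h1
    · simp [h0, h1, not_lt.2 h1.le, h1.ne', e2]
    · rcases lt_trichotomy (a 2) (b 2) with h2 | h2 | h2
      · simp [h0, h1, h2, not_lt.2 h2.le, e2]
      · exact absurd (ext3 h1 h0 h2) h
      · simp [h0, h1, h2, not_lt.2 h2.le]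
    · simp [h0, h1, not_lt.2 h1.le, h1.ne']
  · simp [h0, not_lt.2 h0.le, h0.ne']

theorem xo_lt {a b : E3} (h : a 0 < b 0) : xo a b = 1 := by simp [xo, h]
theorem xo_gt {a b : E3} (h : b 0 < a 0) : xo a b = 0 := by simp [xo, not_lt.2 h.le, h.ne']
theorem yo_lt {a b : E3} (h : a 1 < b 1) : yo a b = 1 := by simp [yo, h]
theorem yo_gt {a b : E3} (h : b 1 < a 1) : yo a b = 0 := by simp [yo, not_lt.2 h.le, h.ne']

noncomputable def cr (p q r s : E3) : ZMod 2 :=
  (xo p s + xo q s) * (yo p r + yo p s) + (xo q r + xo q s) * (yo p r + yo q r)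

noncomputable def om (p q r s : E3) : ZMod 2 := zo (p 2) (r 2) * cr p q r s

noncomputable def FF (p r s : E3) : ZMod 2 := xo p s * (yo p r + yo p s)

noncomputable def GG (p q r : E3) : ZMod 2 := xo q r * (yo p r + yo q r)

theorem cr_eq (p q r s : E3) : cr p q r s = (FF p r s + FF q r s) + (GG p q r + GG p q s) := by
  unfold cr FF GG
  generalize xo p s = a1; generalize xo q s = a2; generalize xo q r = a3
  generalize yo p r = b1; generalize yo p s = b2; generalize yo q r = b3; generalize yo q s = b4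
  revert a1 a2 a3 b1 b2 b3 b4; decide

theorem GG_eq {p r s : E3} (hr : p ≠ r) (hs : p ≠ s) :
    GG r s p = FF p r s + (yo p r + yo p s) := by
  unfold GG FF
  rw [xo_anti hs, yo_anti hr, yo_anti hs]
  generalize xo p s = a1; generalize yo p r = b1; generalize yo p s = b2
  revert a1 b1 b2; decide

theorem cr_symm {p q r s : E3} (h1 : p ≠ r) (h2 : p ≠ s) (h3 : q ≠ r) (h4 : q ≠ s) :
    cr r s p q = cr p q r s := by
  unfold cr
  rw [xo_anti h2, xo_anti h3, xo_anti h4, yo_anti h1, yo_anti h2, yo_anti h3]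
  generalize xo p s = a1; generalize xo q s = a2; generalize xo q r = a3
  generalize yo p r = b1; generalize yo p s = b2; generalize yo q r = b3
  revert a1 a2 a3 b1 b2 b3; decide

theorem co_le (a b : E3) (i : Fin 3) : |a i - b i| ≤ dist a b := by
  have := PiLp.dist_apply_le a b i
  simpa [Real.dist_eq] using this

theorem dist_le3 (a b : E3) : dist a b ≤ |a 0 - b 0| + |a 1 - b 1| + |a 2 - b 2| := by
  rw [EuclideanSpace.dist_eq, Fin.sum_univ_three]
  simp only [Real.dist_eq]
  apply Real.sqrt_le_iff.2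
  refine ⟨by positivity, ?_⟩
  have h0 := abs_nonneg (a 0 - b 0); have h1 := abs_nonneg (a 1 - b 1)
  have h2 := abs_nonneg (a 2 - b 2)
  nlinarith [mul_nonneg h0 h1, mul_nonneg h0 h2, mul_nonneg h1 h2]

theorem xo_far {a b c d : E3} {t : ℝ} (hac : dist a c ≤ t) (hbd : dist b d ≤ t)
    (h : 2 * t < |a 0 - b 0|) : xo c d = xo a b := by
  have h1 := abs_le.1 ((co_le a c 0).trans hac)
  have h2 := abs_le.1 ((co_le b d 0).trans hbd)
  have ht : 0 ≤ t := dist_nonneg.trans hac
  rcases lt_abs.1 h with h | h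
  · rw [xo_gt (by linarith), xo_gt (by linarith)]
  · rw [xo_lt (by linarith), xo_lt (by linarith)]

theorem yo_far {a b c d : E3} {t : ℝ} (hac : dist a c ≤ t) (hbd : dist b d ≤ t)
    (h : 2 * t < |a 1 - b 1|) : yo c d = yo a b := by
  have h1 := abs_le.1 ((co_le a c 1).trans hac)
  have h2 := abs_le.1 ((co_le b d 1).trans hbd)
  have ht : 0 ≤ t := dist_nonneg.trans hac
  rcases lt_abs.1 h with h | h
  · rw [yo_gt (by linarith), yo_gt (by linarith)]
  · rw [yo_lt (by linarith), yo_lt (by linarith)]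

theorem two0 (a : ZMod 2) : a + a = 0 := by revert a; decide

/-- locality of the crossing number -/
theorem cr_far {o p q r s : E3} {t : ℝ} (hp : dist o p ≤ t) (hq : dist o q ≤ t)
    (hs : dist r s ≤ t) (h : 2 * t < |o 0 - r 0| ∨ 2 * t < |o 1 - r 1|) : cr p q r s = 0 := by
  have ht : 0 ≤ t := dist_nonneg.trans hp
  have hr : dist r r ≤ t := by simpa using ht
  unfold cr
  rcases h with h | h
  · rw [xo_far hp hs h, xo_far hq hs h, xo_far hq hr h, two0]; simp
  · rw [yo_far hp hs h, yo_far hp hr h, yo_far hq hr h, two0]; simp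

theorem zo_far {a b c d t : ℝ} (hac : |a - c| ≤ t) (hbd : |b - d| ≤ t) (h : 2 * t < |a - b|) :
    zo c d = zo a b := by
  have h1 := abs_le.1 hac
  have h2 := abs_le.1 hbd
  have ht : 0 ≤ t := (abs_nonneg _).trans hac
  unfold zo
  rcases lt_abs.1 h with h | h
  · rw [if_pos (by linarith), if_pos (by linarith)]
  · rw [if_neg (by linarith), if_neg (by linarith)]

theorem far_cases {a b : E3} {t : ℝ} (h : 6 * t < dist a b) :
    (2 * t < |a 0 - b 0| ∨ 2 * t < |a 1 - b 1|) ∨ 2 * t < |a 2 - b 2| := by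
  have := dist_le3 a b
  by_contra hc
  push Not at hc
  linarith [hc.1.1, hc.1.2, hc.2]

/-- (P2) over plus under is crossing -/
theorem om_add {p q r s : E3} {t : ℝ} (hq : dist p q ≤ t) (hs : dist r s ≤ t)
    (h : 6 * t < dist p r) : om p q r s + om r s p q = cr p q r s := by
  have ht : 0 ≤ t := dist_nonneg.trans hq
  have h1 : p ≠ r := by rintro rfl; simp at h; linarith
  have h2 : p ≠ s := by
    rintro rfl; rw [dist_comm] at hs; linarith
  have h3 : q ≠ r := by rintro rfl; linarith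
  have h4 : q ≠ s := by
    rintro rfl
    have := dist_triangle p q r
    rw [dist_comm] at hs; linarith
  unfold om
  rw [cr_symm h1 h2 h3 h4]
  rcases far_cases h with hf | hf
  · rw [cr_far (o := p) (by simpa using ht) hq hs hf]; simp
  · have : zo (p 2) (r 2) + zo (r 2) (p 2) = 1 := by
      unfold zo
      rcases lt_abs.1 hf with h | h
      · rw [if_pos (by linarith), if_neg (by linarith)]; simp
      · rw [if_neg (by linarith), if_pos (by linarith)]; simp
    rw [← add_mul, this, one_mul]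

theorem GG_far {p q u v : E3} {t : ℝ} (hq : dist p q ≤ t) (hu : dist p u ≤ t)
    (hv : 2 * t < |p 0 - v 0| ∨ 2 * t < |p 1 - v 1|) :
    GG p q v + GG q u v + GG u p v = 0 := by
  have ht : 0 ≤ t := dist_nonneg.trans hq
  have hp : dist p p ≤ t := by simpa using ht
  have hv' : dist v v ≤ t := by simpa using ht
  unfold GG
  rcases hv with h | h
  · rw [xo_far hq hv' h, xo_far hu hv' h]
    generalize xo p v = a; generalize yo p v = b1; generalize yo q v = b2; generalize yo u v = b3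
    revert a b1 b2 b3; decide
  · rw [yo_far hq hv' h, yo_far hu hv' h, two0]; simp

theorem cr_tri (p q u r s : E3) : cr p q r s + cr q u r s + cr u p r s =
    (GG p q r + GG q u r + GG u p r) + (GG p q s + GG q u s + GG u p s) := by
  rw [cr_eq, cr_eq, cr_eq]
  linear_combination two0 (FF p r s) + two0 (FF q r s) + two0 (FF u r s)

theorem om_tri {p q u r s : E3} {t : ℝ} (hq : dist p q ≤ t) (hu : dist p u ≤ t)
    (hrs : dist r s ≤ t) (hpr : 6 * t < dist p r) :
    om p q r s + om q u r s + om u p r s =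
      zo (p 2) (r 2) * (GG p q r + GG q u r + GG u p r) +
      zo (p 2) (s 2) * (GG p q s + GG q u s + GG u p s) := by
  have ht : 0 ≤ t := dist_nonneg.trans hq
  have hp : dist p p ≤ t := by simpa using ht
  have hsum := cr_tri p q u r s
  rcases far_cases hpr with h | h
  · have c1 := cr_far hp hq hrs h
    have c2 := cr_far hq hu hrs h
    have c3 := cr_far hu hp hrs h
    have g1 := GG_far hq hu h
    rw [c1, c2, c3, g1] at hsum
    have g2 : GG p q s + GG q u s + GG u p s = 0 := by simpa using hsum.symm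
    unfold om
    rw [c1, c2, c3, g1, g2]; simp
  · have z1 : zo (q 2) (r 2) = zo (p 2) (r 2) :=
      zo_far ((co_le p q 2).trans hq) (by simpa using ht) h
    have z2 : zo (u 2) (r 2) = zo (p 2) (r 2) :=
      zo_far ((co_le p u 2).trans hu) (by simpa using ht) h
    have z3 : zo (p 2) (s 2) = zo (p 2) (r 2) :=
      zo_far (by simpa using ht) ((co_le r s 2).trans hrs) h
    unfold om
    rw [z1, z2, z3, ← mul_add, ← mul_add, ← mul_add, hsum]

/-- (P1) the over-crossing number with a closed chain is a cocycle on small triples far from it -/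
theorem cocycle {B : Ch} (hB : Cyc B) {t : ℝ} (hs : ∀ x ∈ B, dist x.1 x.2 ≤ t) {p q u : E3}
    (hq : dist p q ≤ t) (hu : dist p u ≤ t) (hf : ∀ x ∈ B, 6 * t < dist p x.1) :
    ev B (fun r s => om p q r s) + ev B (fun r s => om q u r s) + ev B (fun r s => om u p r s)
      = 0 := by
  have h0 := hB (fun r => zo (p 2) (r 2) * (GG p q r + GG q u r + GG u p r))
  rw [← ev_add, ← ev_add, ← h0]
  exact ev_congr fun x hx => om_tri hq hu (hs x hx) (hf x hx)

/-- crossing sum of two chains -/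
noncomputable def CR (c d : Ch) : ZMod 2 := ev c fun p q => ev d fun r s => cr p q r s

/-- over-crossing sum of two chains -/
noncomputable def OM (c d : Ch) : ZMod 2 := ev c fun p q => ev d fun r s => om p q r s

theorem OM_add {c d : Ch} {t : ℝ} (hc : ∀ x ∈ c, dist x.1 x.2 ≤ t) (hd : ∀ x ∈ d, dist x.1 x.2 ≤ t)
    (h : ∀ x ∈ c, ∀ y ∈ d, 6 * t < dist x.1 y.1) : OM c d + OM d c = CR c d := by
  unfold OM CR
  rw [ev_comm d c, ← ev_add]
  refine ev_congr fun x hx => ?_
  rw [← ev_add]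
  exact ev_congr fun y hy => om_add (hc x hx) (hd y hy) (h x hx y hy)

/-- the part of the crossing sum carried by an end point -/
noncomputable def FC (u : E3) (d : Ch) : ZMod 2 := ev d fun r s => FF u r s

theorem CR_eq {c d : Ch} {u v a b : E3} (hc : Bd c u v) (hd : Bd d a b)
    (ha : ∀ x ∈ c, a ≠ x.1 ∧ a ≠ x.2) (hb : ∀ x ∈ c, b ≠ x.1 ∧ b ≠ x.2) :
    CR c d = (FC u d + FC v d) + (FC a c + FC b c) + (yo a u + yo a v + (yo b u + yo b v)) := by
  have h1 : ∀ p q, (ev d fun r s => cr p q r s) =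
      (FC p d + FC q d) + (GG p q a + GG p q b) := by
    intro p q
    rw [← hd (GG p q)]
    unfold FC
    rw [← ev_add, ← ev_add]
    exact ev_congr fun x _ => cr_eq _ _ _ _
  unfold CR
  simp only [h1]
  rw [ev_add, hc (fun p => FC p d), ev_add]
  have h2 : ∀ w : E3, (∀ x ∈ c, w ≠ x.1 ∧ w ≠ x.2) →
      (ev c fun p q => GG p q w) = FC w c + (yo w u + yo w v) := by
    intro w hw
    rw [← hc (yo w)]
    unfold FC
    rw [← ev_add]
    exact ev_congr fun x hx => GG_eq (hw x hx).1 (hw x hx).2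
  rw [h2 a ha, h2 b hb]
  ring

theorem vk_alg (W : Fin 3 → Fin 3 → Fin 3 → Fin 3 → ZMod 2)
    (Fa Fb : Fin 3 → Fin 3 → Fin 3 → ZMod 2) (y1 y2 y3 y4 : Fin 3 → Fin 3 → ZMod 2)
    (h : ∀ i j i' j', i ≠ i' → j ≠ j' → W i j i' j' + W i' j' i j =
      (Fa i i' j' + Fb j i' j') + (Fa i' i j + Fb j' i j) +
        (y1 i' i + y2 i' j + (y3 j' i + y4 j' j)))
    (hy : ∀ j j', j ≠ j' → y4 j j' = 1 + y4 j' j) :
    (∑ i, ∑ j, ∑ i', ∑ j', if i ≠ i' ∧ j ≠ j' then W i j i' j' else 0) = 1 := by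
  simp only [Fin.sum_univ_three]
  simp only [ne_eq, Fin.reduceEq, not_true_eq_false, not_false_eq_true, and_true, and_false,
    if_true, if_false, and_self]
  linear_combination (norm := (ring_nf; reduce_mod_char; try ring_nf))
    h 0 0 1 1 (by decide) (by decide) + h 0 0 1 2 (by decide) (by decide) +
    h 0 1 1 0 (by decide) (by decide) + h 0 1 1 2 (by decide) (by decide) +
    h 0 2 1 0 (by decide) (by decide) + h 0 2 1 1 (by decide) (by decide) +
    h 0 0 2 1 (by decide) (by decide) + h 0 0 2 2 (by decide) (by decide) +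
    h 0 1 2 0 (by decide) (by decide) + h 0 1 2 2 (by decide) (by decide) +
    h 0 2 2 0 (by decide) (by decide) + h 0 2 2 1 (by decide) (by decide) +
    h 1 0 2 1 (by decide) (by decide) + h 1 0 2 2 (by decide) (by decide) +
    h 1 1 2 0 (by decide) (by decide) + h 1 1 2 2 (by decide) (by decide) +
    h 1 2 2 0 (by decide) (by decide) + h 1 2 2 1 (by decide) (by decide) +
    hy 0 1 (by decide) + hy 0 2 (by decide) + hy 1 2 (by decide)

/-- van Kampen's parity for `K_{3,3}`, in the form used for Sachs' theorem -/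
theorem vk (a b : Fin 3 → E3) (c : Fin 3 → Fin 3 → Ch) {t : ℝ}
    (hbd : ∀ i j, Bd (c i j) (a i) (b j)) (hs : ∀ i j, ∀ x ∈ c i j, dist x.1 x.2 ≤ t)
    (hf : ∀ i j i' j', i ≠ i' → j ≠ j' → ∀ x ∈ c i j, ∀ y ∈ c i' j', 6 * t < dist x.1 y.1)
    (ha : ∀ i j i', i ≠ i' → ∀ x ∈ c i j, a i' ≠ x.1 ∧ a i' ≠ x.2)
    (hb : ∀ i j j', j ≠ j' → ∀ x ∈ c i j, b j' ≠ x.1 ∧ b j' ≠ x.2)
    (hbb : ∀ j j', j ≠ j' → b j ≠ b j') :
    (∑ i, ∑ j, ∑ i', ∑ j', if i ≠ i' ∧ j ≠ j' then OM (c i j) (c i' j') else 0) = 1 := by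
  refine vk_alg (fun i j i' j' => OM (c i j) (c i' j')) (fun i i' j' => FC (a i) (c i' j'))
    (fun j i' j' => FC (b j) (c i' j')) (fun i' i => yo (a i') (a i)) (fun i' j => yo (a i') (b j))
    (fun j' i => yo (b j') (a i)) (fun j' j => yo (b j') (b j)) ?_ ?_
  · intro i j i' j' hi hj
    rw [OM_add (hs i j) (hs i' j') (hf i j i' j' hi hj)]
    exact CR_eq (hbd i j) (hbd i' j') (ha i j i' hi) (hb i j j' hj)
  · intro j j' hj
    exact yo_anti (hbb j' j hj.symm)

end Pool.Agent.TL
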