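import Pool.Agent.Lib.MP_4fe900_gt.TL.AS

/-! Closed chains on different sides of an embedded sphere have over-crossing number zero. -/

namespace Pool.Agent.TL

open Metric Set

theorem seg_hit {K : Set E3} {x0 u y : E3} (hu : u ∈ connectedComponentIn Kᶜ x0)
    (hy : y ∉ connectedComponentIn Kᶜ x0) :
    ∃ k ∈ K, dist u k ≤ dist u y ∧ dist k y ≤ dist u y := by
  by_contra hc
  have hs : segment ℝ u y ⊆ Kᶜ := by
    intro k hk hK
    have := dist_add_dist_of_mem_segment hk
    exact hc ⟨k, hK, by linarith [dist_nonneg (x := k) (y := y)],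
      by linarith [dist_nonneg (x := u) (y := k)]⟩
  have := (convex_segment u y).isPreconnected.subset_connectedComponentIn
    (left_mem_segment ℝ u y) hs
  rw [← connectedComponentIn_eq hu] at this
  exact hy (this (right_mem_segment ℝ u y))

theorem sep (h : C(sphere (0:E3) 1, E3)) (hi : Function.Injective h) (R : ℝ) {D : ℝ}
    (hD : 0 < D) : ∃ δ > 0, ∀ (X Y : Ch) (x0 : E3), Cyc X → Cyc Y →
      (∀ x ∈ X, dist x.1 x.2 ≤ δ) → (∀ y ∈ Y, dist y.1 y.2 ≤ δ) →
      (∀ x ∈ X, x.1 ∈ connectedComponentIn (range h)ᶜ x0 ∧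
        x.2 ∈ connectedComponentIn (range h)ᶜ x0 ∧ x.1 ∈ closedBall (0:E3) R ∧
        x.2 ∈ closedBall (0:E3) R) →
      (∀ y ∈ Y, y.1 ∉ connectedComponentIn (range h)ᶜ x0 ∧ ∀ k ∈ range h, D ≤ dist k y.1) →
      OM X Y = 0 := by
  classical
  have ht : 0 < D / 8 := by positivity
  obtain ⟨η1, h1, H1⟩ := as_emb h hi ht
  obtain ⟨ρ, hρ, hρ1, hρ2⟩ : ∃ ρ > 0, 12 * ρ ≤ η1 ∧ 12 * ρ ≤ D / 8 :=
    ⟨min η1 (D / 8) / 12, by positivity, by linarith [min_le_left η1 (D / 8)],
      by linarith [min_le_right η1 (D / 8)]⟩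
  obtain ⟨η2, h2, H2⟩ := as_ball R hρ
  refine ⟨min η2 (D / 8), by positivity, fun X Y x0 hX hY sX sY mX mY => ?_⟩
  set K := range h
  set U := connectedComponentIn Kᶜ x0
  obtain ⟨c, hc⟩ : ∃ c : E3 → E3 → ZMod 2, c = fun p q => ev Y fun r s => om p q r s := ⟨_, rfl⟩
  set F : Set E3 := {p | ∀ y ∈ Y, 6 * (D / 8) < dist p y.1} with hF
  have cF : Coc c F (D / 8) := by
    intro p hp q _ u _ d1 d2
    simp only [hc]
    exact cocycle hY (fun y hy => (sY y hy).trans (min_le_right _ _)) d1 d2 hp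
  have nF : ∀ p, ∀ k ∈ K, dist p k ≤ 4 * ρ → p ∈ F := by
    intro p k hk hd y hy
    have := (mY y hy).2 k hk
    have := dist_triangle k p y.1
    rw [dist_comm k p] at this
    linarith
  have KF : ∀ k ∈ K, k ∈ F := fun k hk => nF k k hk (by simp; positivity)
  have UF : ∀ u ∈ U, u ∈ F := by
    intro u hu y hy
    obtain ⟨k, hk, -, d⟩ := seg_hit hu (mY y hy).1
    have := (mY y hy).2 k hk
    linarith
  obtain ⟨σ, hσ⟩ := H1 c fun p hp q hq u hu d1 d2 => cF p (KF p hp) q (KF q hq) u (KF u hu) d1 d2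
  obtain ⟨τ, hτ⟩ : ∃ τ : E3 → ZMod 2, ∀ p, (∃ k ∈ K, dist p k ≤ 4 * ρ) →
      ∃ k ∈ K, dist p k ≤ 4 * ρ ∧ τ p = σ k + c p k := by
    refine ⟨fun p => if hp : ∃ k ∈ K, dist p k ≤ 4 * ρ then σ hp.choose + c p hp.choose else 0,
      fun p hp => ⟨hp.choose, hp.choose_spec.1, hp.choose_spec.2, ?_⟩⟩
    simp only [hp, dif_pos]
  have van : ∀ p q, (∃ k ∈ K, dist p k ≤ 4 * ρ) → (∃ k ∈ K, dist q k ≤ 4 * ρ) →
      dist p q ≤ 4 * ρ → c p q + (τ p + τ q) = 0 := by
    intro p q hp hq d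
    obtain ⟨k, hk, dk, ek⟩ := hτ p hp
    obtain ⟨l, hl, dl, el⟩ := hτ q hq
    have pF := nF p k hk dk
    have qF := nF q l hl dl
    have dpl : dist p l ≤ 8 * ρ := by linarith [dist_triangle p q l]
    have dkl : dist k l ≤ 12 * ρ := by
      have := dist_triangle k p l
      rw [dist_comm k p] at this; linarith
    have t1 := cF p pF q qF l (KF l hl) (by linarith) (by linarith)
    have t2 := cF p pF k (KF k hk) l (KF l hl) (by linarith) (by linarith)
    have t3 := hσ k hk l hl (by linarith)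
    linear_combination (norm := (ring_nf; reduce_mod_char; try ring_nf)) t1 + t2 + t3 + ek + el
  obtain ⟨σ', hσ'⟩ := H2 (fun p q => if p ∈ U ∧ q ∈ U then c p q + (τ p + τ q) else 0) (by
    intro p _ q _ u _ d1 d2
    have d3 : dist q u ≤ 2 * ρ := by
      have := dist_triangle q p u
      rw [dist_comm q p] at this; linarith
    by_cases hall : p ∈ U ∧ q ∈ U ∧ u ∈ U
    · obtain ⟨a1, a2, a3⟩ := hall
      simp only [a1, a2, a3, and_self, if_true]
      have := cF p (UF p a1) q (UF q a2) u (UF u a3) (by linarith) (by linarith)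
      linear_combination (norm := (ring_nf; reduce_mod_char; try ring_nf)) this
    · have z : ∀ a b e : E3, dist a b ≤ 2 * ρ → dist a e ≤ 2 * ρ → ¬ (a ∈ U ∧ b ∈ U ∧ e ∈ U) →
          (if a ∈ U ∧ b ∈ U then c a b + (τ a + τ b) else 0) = 0 := by
        intro a b e da de hn
        split_ifs with hab
        · obtain ⟨k, hk, dk, -⟩ := seg_hit hab.1 (fun he => hn ⟨hab.1, hab.2, he⟩)
          refine van a b ⟨k, hk, by linarith⟩ ⟨k, hk, ?_⟩ (by linarith)
          have := dist_triangle b a k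
          rw [dist_comm b a] at this; linarith
        · rfl
      beta_reduce
      rw [z p q u (by linarith) (by linarith) hall,
        z q u p d3 (by rw [dist_comm]; linarith) (by tauto),
        z u p q (by rw [dist_comm]; linarith) (by rw [dist_comm]; linarith) (by tauto)]
      simp)
  have e1 : ev X (fun p q => c p q + (τ p + τ q)) = ev X (fun p q => σ' p + σ' q) := by
    refine ev_congr fun x hx => ?_
    obtain ⟨a1, a2, a3, a4⟩ := mX x hx
    have := hσ' x.1 a3 x.2 a4 ((sX x hx).trans (min_le_left _ _))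
    simpa only [a1, a2, and_self, if_true] using this
  rw [ev_add, hX τ, hX σ', add_zero, hc] at e1
  exact e1

end Pool.Agent.TL
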